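import Mathlib

/-!
A step in homological algebra: the cohomology of the quotient of a cochain complex by an
automorphism without fixed points.
-/

set_option autoImplicit false

namespace Pool.Agent.Q169.CT

variable {A B : ℕ → Type} [∀ i, AddCommGroup (A i)] [∀ i, AddCommGroup (B i)]

/-- coboundaries -/
def Bd (dA : ∀ i, A i →+ A (i + 1)) : ∀ i, A i → Prop
  | 0, y => y = 0
  | i + 1, y => ∃ x, dA i x = y

variable {dA : ∀ i, A i →+ A (i + 1)} {dB : ∀ i, B i →+ B (i + 1)}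

theorem Bd_map (P : ∀ i, A i →+ B i) (hP : ∀ i x, dB i (P i x) = P (i + 1) (dA i x)) :
    ∀ (i : ℕ) (y : A i), Bd dA i y → Bd dB i (P i y)
  | 0, y, h => by
    have h' : y = 0 := h
    change P 0 y = 0
    rw [h', map_zero]
  | i + 1, y, h => by
    obtain ⟨x, hx⟩ := h
    exact ⟨P i x, by rw [hP, hx]⟩

theorem Bd_lift (hdA : ∀ i x, dA (i + 1) (dA i x) = 0) (P : ∀ i, A i →+ B i)
    (hP : ∀ i x, dB i (P i x) = P (i + 1) (dA i x)) (hs : ∀ i, Function.Surjective (P i)) :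
    ∀ (i : ℕ) (y : A i), Bd dB i (P i y) → ∃ e, dA i e = 0 ∧ P i e = P i y
  | 0, y, h => by
    have h' : P 0 y = 0 := h
    exact ⟨0, map_zero _, by rw [h', map_zero]⟩
  | i + 1, y, h => by
    obtain ⟨x', hx'⟩ := h
    obtain ⟨x, rfl⟩ := hs i x'
    exact ⟨dA i x, hdA i x, by rw [← hx', hP]⟩

theorem step (hdA : ∀ i x, dA (i + 1) (dA i x) = 0) (T : ∀ i, A i →+ A i) (P : ∀ i, A i →+ B i)
    (hT : ∀ i x, dA i (T i x) = T (i + 1) (dA i x))
    (hP : ∀ i x, dB i (P i x) = P (i + 1) (dA i x)) (hs : ∀ i, Function.Surjective (P i))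
    (hPT : ∀ i x, P i (T i x) = P i x) (hk : ∀ i x, P i x = 0 → ∃ u, x = T i u - u)
    (hf : ∀ i x, T i x = x → x = 0) {ι : Type} (S : ι → ∀ i, A i →+ A i)
    (S' : ι → ∀ i, B i →+ B i) (hS : ∀ s i x, dA i (S s i x) = S s (i + 1) (dA i x))
    (hST : ∀ s i x, S s i (T i x) = T i (S s i x))
    (hSP : ∀ s i x, P i (S s i x) = S' s i (P i x)) (k : ℕ)
    (h1 : ∀ i ≤ k, ∀ y, dA i y = 0 → Bd dA i y) (z : A (k + 1)) (hn : ¬ Bd dA (k + 1) z)
    (hTz : Bd dA (k + 1) (T (k + 1) z - z)) (hSz : ∀ s, Bd dA (k + 1) (S s (k + 1) z - z)) :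
    (∀ i < k, ∀ y, dB i y = 0 → Bd dB i y) ∧
      ∃ z1 : B k, dB k z1 = 0 ∧ ¬ Bd dB k z1 ∧ ∀ s, Bd dB k (S' s k z1 - z1) := by
  constructor
  · intro i hi y hy
    obtain ⟨c, rfl⟩ := hs i y
    rw [hP] at hy
    obtain ⟨u, hu⟩ := hk _ _ hy
    have hdu : dA (i + 1) u = 0 := by
      apply hf
      have h2 := hdA i c
      rw [hu, map_sub, hT, sub_eq_zero] at h2
      exact h2
    obtain ⟨v, hv⟩ := h1 (i + 1) (by omega) u hdu
    have h3 : dA i (c - (T i v - v)) = 0 := by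
      rw [map_sub, map_sub, hT, hv, hu, sub_self]
    have h4 := Bd_map P hP i _ (h1 i (by omega) _ h3)
    rw [map_sub, map_sub, hPT, sub_self, sub_zero] at h4
    exact h4
  · obtain ⟨y, hy⟩ := hTz
    refine ⟨P k y, ?_, ?_, ?_⟩
    · rw [hP, hy, map_sub, hPT, sub_self]
    · intro hb
      obtain ⟨e, he, heP⟩ := Bd_lift hdA P hP hs k y hb
      obtain ⟨u, hu⟩ := hk k (y - e) (by rw [map_sub, heP, sub_self])
      have h5 : T (k + 1) z - z = T (k + 1) (dA k u) - dA k u := by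
        rw [← hy, ← hT, ← map_sub, ← hu, map_sub, he, sub_zero]
      have h6 : z - dA k u = 0 := by
        apply hf
        rw [map_sub]
        linear_combination (norm := abel_nf) h5
      exact hn ⟨u, (sub_eq_zero.1 h6).symm⟩
    · intro s
      obtain ⟨v, hv⟩ := hSz s
      have h7 : dA k (S s k y - y - (T k v - v)) = 0 := by
        rw [map_sub, map_sub, map_sub, hS, hT, hv, hy, map_sub, map_sub, hST]
        abel
      have h8 := Bd_map P hP k _ (h1 k le_rfl _ h7)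
      rw [map_sub, map_sub, map_sub, hPT, sub_self, sub_zero, hSP] at h8
      exact h8

end Pool.Agent.Q169.CT
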