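import Mathlib

/-!
A step in homological algebra: the cohomology of the quotient of a cochain complex by an
automorphism without fixed points, when the cohomology is infinite cyclic.
-/

set_option autoImplicit false

namespace Pool.Agent.Q169.CT

variable {A B : ℕ → Type} [∀ i, AddCommGroup (A i)] [∀ i, AddCommGroup (B i)]

/-- coboundaries -/
def BS (dA : ∀ i, A i →+ A (i + 1)) : ∀ i, AddSubgroup (A i)
  | 0 => ⊥
  | i + 1 => (dA i).range

/-- The cohomology vanishes below degree `k` and is infinite cyclic in degree `k`. -/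
def OZ (dA : ∀ i, A i →+ A (i + 1)) (k : ℕ) : Prop :=
  (∀ i < k, ∀ y, dA i y = 0 → y ∈ BS dA i) ∧
    ∃ z, dA k z = 0 ∧ (∀ y, dA k y = 0 → ∃ m : ℤ, y - m • z ∈ BS dA k) ∧
      ∀ m : ℤ, m • z ∈ BS dA k → m = 0

variable {dA : ∀ i, A i →+ A (i + 1)} {dB : ∀ i, B i →+ B (i + 1)}

theorem BS_map (P : ∀ i, A i →+ B i) (hP : ∀ i x, dB i (P i x) = P (i + 1) (dA i x)) :
    ∀ (i : ℕ) (y : A i), y ∈ BS dA i → P i y ∈ BS dB i
  | 0, y, h => by
    have h' : y = 0 := h
    rw [h', map_zero]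
    exact AddSubgroup.zero_mem _
  | i + 1, y, h => by
    obtain ⟨x, rfl⟩ := h
    exact ⟨P i x, hP i x⟩

theorem BS_lift (hdA : ∀ i x, dA (i + 1) (dA i x) = 0) (P : ∀ i, A i →+ B i)
    (hP : ∀ i x, dB i (P i x) = P (i + 1) (dA i x)) (hs : ∀ i, Function.Surjective (P i)) :
    ∀ (i : ℕ) (y : A i), P i y ∈ BS dB i → ∃ e, dA i e = 0 ∧ P i e = P i y
  | 0, y, h => by
    have h' : P 0 y = 0 := h
    exact ⟨0, map_zero _, by rw [h', map_zero]⟩
  | i + 1, y, h => by
    obtain ⟨x', hx'⟩ := h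
    obtain ⟨x, rfl⟩ := hs i x'
    exact ⟨dA i x, hdA i x, by rw [← hx', hP]⟩

/-- The square of an automorphism acts trivially on infinite cyclic cohomology. -/
theorem sq_act (k : ℕ) (z : A k) (hz : dA k z = 0)
    (hgen : ∀ y, dA k y = 0 → ∃ m : ℤ, y - m • z ∈ BS dA k)
    (hfree : ∀ m : ℤ, m • z ∈ BS dA k → m = 0) (R R' : ∀ i, A i →+ A i)
    (hR : ∀ i x, dA i (R i x) = R (i + 1) (dA i x))
    (hR' : ∀ i x, dA i (R' i x) = R' (i + 1) (dA i x)) (hRR : R k (R' k z) = z) :
    R k (R k z) - z ∈ BS dA k := by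
  obtain ⟨m, hm⟩ := hgen (R k z) (by rw [hR, hz, map_zero])
  obtain ⟨m', hm'⟩ := hgen (R' k z) (by rw [hR', hz, map_zero])
  have h2 := BS_map R hR k _ hm'
  rw [map_sub, map_zsmul, hRR] at h2
  have h4 : (1 - m' * m) • z ∈ BS dA k := by
    have h5 := AddSubgroup.add_mem _ h2 (AddSubgroup.zsmul_mem _ hm m')
    have h6 : z - m' • R k z + m' • (R k z - m • z) = (1 - m' * m) • z := by module
    rw [h6] at h5
    exact h5
  have h5 := hfree _ h4
  have h6 : m' * m = 1 := by omega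
  have h7 : m * m = 1 := by
    rcases Int.eq_one_or_neg_one_of_mul_eq_one' h6 with h | h <;> rw [h.2] <;> norm_num
  have h8 := AddSubgroup.add_mem _ (BS_map R hR k _ hm) (AddSubgroup.zsmul_mem _ hm m)
  rw [map_sub, map_zsmul] at h8
  have h9 : R k (R k z) - m • R k z + m • (R k z - m • z) = R k (R k z) - (m * m) • z := by module
  rw [h9, h7, one_smul] at h8
  exact h8

theorem step2 (hdA : ∀ i x, dA (i + 1) (dA i x) = 0) (T : ∀ i, A i →+ A i) (P : ∀ i, A i →+ B i)
    (hT : ∀ i x, dA i (T i x) = T (i + 1) (dA i x))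
    (hP : ∀ i x, dB i (P i x) = P (i + 1) (dA i x)) (hs : ∀ i, Function.Surjective (P i))
    (hPT : ∀ i x, P i (T i x) = P i x) (hk : ∀ i x, P i x = 0 → ∃ u, x = T i u - u)
    (hf : ∀ i x, T i x = x → x = 0) (k : ℕ)
    (h1 : ∀ i < k + 1, ∀ y, dA i y = 0 → y ∈ BS dA i) (z : A (k + 1))
    (hgen : ∀ y, dA (k + 1) y = 0 → ∃ m : ℤ, y - m • z ∈ BS dA (k + 1))
    (hfree : ∀ m : ℤ, m • z ∈ BS dA (k + 1) → m = 0)
    (hTz : T (k + 1) z - z ∈ BS dA (k + 1)) : OZ dB k := by
  constructor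
  · intro i hi y hy
    obtain ⟨c, rfl⟩ := hs i y
    rw [hP] at hy
    obtain ⟨u, hu⟩ := hk _ _ hy
    have hdu : dA (i + 1) u = 0 := by
      apply hf
      have h2 := hdA i c
      rw [hu, map_sub, hT, sub_eq_zero] at h2
      exact h2
    obtain ⟨v, hv⟩ := h1 (i + 1) (by omega) u hdu
    have h3 : dA i (c - (T i v - v)) = 0 := by
      rw [map_sub, map_sub, hT, hv, hu, sub_self]
    have h4 := BS_map P hP i _ (h1 i (by omega) _ h3)
    rw [map_sub, map_sub, hPT, sub_self, sub_zero] at h4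
    exact h4
  · obtain ⟨y, hy⟩ := hTz
    refine ⟨P k y, ?_, ?_, ?_⟩
    · rw [hP, hy, map_sub, hPT, sub_self]
    · intro x' hx'
      obtain ⟨x, rfl⟩ := hs k x'
      rw [hP] at hx'
      obtain ⟨u, hu⟩ := hk _ _ hx'
      have hdu : dA (k + 1) u = 0 := by
        apply hf
        have h2 := hdA k x
        rw [hu, map_sub, hT, sub_eq_zero] at h2
        exact h2
      obtain ⟨m, v, hv⟩ := hgen u hdu
      refine ⟨m, ?_⟩
      have hu2 : u = dA k v + m • z := by rw [hv]; abel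
      have h3 : dA k (x - m • y - (T k v - v)) = 0 := by
        rw [map_sub, map_sub, map_sub, map_zsmul, hT, hy, hu, hu2, map_add, map_zsmul]
        module
      have h4 := BS_map P hP k _ (h1 k (by omega) _ h3)
      rw [map_sub, map_sub, map_sub, map_zsmul, hPT, sub_self, sub_zero] at h4
      exact h4
    · intro m hm
      rw [← map_zsmul] at hm
      obtain ⟨e, he, heP⟩ := BS_lift hdA P hP hs k (m • y) hm
      obtain ⟨u, hu⟩ := hk k (m • y - e) (by rw [map_sub, heP, sub_self])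
      have h5 : m • (T (k + 1) z - z) = T (k + 1) (dA k u) - dA k u := by
        rw [← hy, ← hT, ← map_sub, ← hu, map_sub, he, sub_zero, map_zsmul]
      have h6 : m • z - dA k u = 0 := by
        apply hf
        rw [map_sub, map_zsmul]
        rw [smul_sub] at h5
        linear_combination (norm := abel_nf) h5
      exact hfree m ⟨u, (sub_eq_zero.1 h6).symm⟩

end Pool.Agent.Q169.CT
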