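import Pool.Agent.H496R3.ZS.Stmt

/-!
Amenability of extensions by infinite cyclic groups.
-/

set_option autoImplicit false

namespace Pool.Agent.Q169.CT

open scoped Pointwise symmDiff
open Pool.Agent.H496R3.ZS (IsAmenable)

/-- Amenability is invariant under isomorphism. -/
theorem amen_equiv {H K : Type} [Group H] [Group K] (e : H ≃* K) (h : IsAmenable H) :
    IsAmenable K := by
  classical
  intro S ε hε
  obtain ⟨F, hF, hS⟩ := h (S.image e.symm) ε hε
  refine ⟨F.image e, hF.image _, fun s hs => ?_⟩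
  have h1 := hS (e.symm s) (Finset.mem_image_of_mem _ hs)
  have h2 : ((s • ((F.image e : Finset K) : Set K)) ∆ ((F.image e : Finset K) : Set K)) =
      e '' (((e.symm s) • (F : Set H)) ∆ (F : Set H)) := by
    rw [Set.image_symmDiff e.injective, Finset.coe_image]
    congr 1
    ext x
    constructor
    · rintro ⟨y, ⟨z, hz, rfl⟩, rfl⟩
      exact ⟨e.symm s * z, ⟨z, hz, rfl⟩, by simp⟩
    · rintro ⟨y, ⟨z, hz, rfl⟩, rfl⟩
      exact ⟨e z, ⟨z, hz, rfl⟩, by simp⟩
  rw [h2, Set.ncard_image_of_injective _ e.injective, Finset.card_image_of_injective _ e.injective]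
  exact h1

theorem amen_ext (H : Type) [Group H] (N : Subgroup H) (t : H) (hN : IsAmenable N)
    (hnorm : ∀ k : ℤ, ∀ c ∈ N, t ^ (-k) * c * t ^ k ∈ N)
    (hg : ∀ h : H, ∃ k : ℤ, ∃ c ∈ N, h = t ^ k * c) (hfr : ∀ m : ℤ, t ^ m ∈ N → m = 0) :
    IsAmenable H := by
  classical
  intro S ε hε
  choose k c hcN hkc using hg
  obtain ⟨K, hK⟩ : ∃ K : ℕ, ∀ s ∈ S, (k s).natAbs ≤ K :=
    ⟨S.sup fun s => (k s).natAbs, fun s hs => Finset.le_sup (f := fun s => (k s).natAbs) hs⟩
  obtain ⟨n, hn⟩ := exists_nat_gt (4 * K / ε)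
  have hn1 : 4 * (K : ℝ) ≤ ε * n := by
    rw [div_lt_iff₀ hε] at hn
    linarith
  have hn0 : 0 < n := by
    rcases Nat.eq_zero_or_pos n with h | h
    · rw [h, Nat.cast_zero] at hn
      have : (0 : ℝ) ≤ 4 * K / ε := by positivity
      linarith
    · exact h
  -- the finite subset of `N`
  let SN : Finset N := (S ×ˢ Finset.Ico (0 : ℤ) n).image
    fun p => ⟨t ^ (-p.2) * c p.1 * t ^ p.2, hnorm p.2 _ (hcN p.1)⟩
  obtain ⟨F, hF, hFS⟩ := hN SN (ε / 2) (by positivity)
  set F0 : Finset H := F.image (fun x : N => (x : H)) with hF0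
  have hcard0 : F0.card = F.card := Finset.card_image_of_injective _ Subtype.val_injective
  have hF0N : ∀ x ∈ F0, x ∈ N := by
    intro x hx
    obtain ⟨y, -, rfl⟩ := Finset.mem_image.1 hx
    exact y.2
  -- invariance in `H`
  let D : H → Finset H := fun a => (F0.image (a * ·)) ∆ F0
  have hD : ∀ s ∈ S, ∀ i ∈ Finset.Ico (0 : ℤ) n,
      ((D (t ^ (-i) * c s * t ^ i)).card : ℝ) ≤ ε / 2 * F.card := by
    intro s hs i hi
    have h1 := hFS ⟨t ^ (-i) * c s * t ^ i, hnorm i _ (hcN s)⟩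
      (Finset.mem_image.2 ⟨(s, i), Finset.mem_product.2 ⟨hs, hi⟩, rfl⟩)
    have h2 : ((D (t ^ (-i) * c s * t ^ i) : Finset H) : Set H) = (fun x : N => (x : H)) ''
        ((((⟨t ^ (-i) * c s * t ^ i, hnorm i _ (hcN s)⟩ : N)) • (F : Set N)) ∆ (F : Set N)) := by
      rw [Set.image_symmDiff Subtype.val_injective, Finset.coe_symmDiff, Finset.coe_image, hF0,
        Finset.coe_image]
      congr 1
      ext x
      constructor
      · rintro ⟨y, ⟨z, hz, rfl⟩, rfl⟩
        exact ⟨_, ⟨z, hz, rfl⟩, rfl⟩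
      · rintro ⟨y, ⟨z, hz, rfl⟩, rfl⟩
        exact ⟨z, ⟨z, hz, rfl⟩, rfl⟩
    rw [← Set.ncard_coe_finset, h2, Set.ncard_image_of_injective _ Subtype.val_injective]
    exact h1
  set b : ℕ := ⌊ε / 2 * F.card⌋₊ with hb
  have hD' : ∀ s ∈ S, ∀ i ∈ Finset.Ico (0 : ℤ) n, (D (t ^ (-i) * c s * t ^ i)).card ≤ b :=
    fun s hs i hi => Nat.le_floor (hD s hs i hi)
  have hbb : (b : ℝ) ≤ ε / 2 * F.card :=
    Nat.floor_le (mul_nonneg (by linarith) (Nat.cast_nonneg _))
  set E : Finset H := (Finset.Ico (0 : ℤ) n ×ˢ F0).image fun p => t ^ p.1 * p.2 with hE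
  have hmemE : ∀ x, x ∈ E ↔ ∃ i : ℤ, 0 ≤ i ∧ i < n ∧ ∃ f ∈ F0, t ^ i * f = x := by
    intro x
    rw [hE, Finset.mem_image]
    constructor
    · rintro ⟨⟨i, f⟩, h, rfl⟩
      rw [Finset.mem_product, Finset.mem_Ico] at h
      exact ⟨i, h.1.1, h.1.2, f, h.2, rfl⟩
    · rintro ⟨i, h1, h2, f, hf, rfl⟩
      exact ⟨(i, f), Finset.mem_product.2 ⟨Finset.mem_Ico.2 ⟨h1, h2⟩, hf⟩, rfl⟩
  have hcardE : E.card = n * F.card := by
    rw [hE, Finset.card_image_of_injOn, Finset.card_product, Int.card_Ico, hcard0]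
    · congr 1
    · rintro ⟨i, f⟩ hp ⟨j, g⟩ hq hpq
      rw [Finset.mem_coe, Finset.mem_product] at hp hq
      simp only at hpq hp hq
      have h1 : t ^ (i - j) ∈ N := by
        have h2 : t ^ (i - j) = g * f⁻¹ := by
          have h3 : t ^ i = t ^ j * g * f⁻¹ := by rw [← hpq]; group
          rw [sub_eq_neg_add, zpow_add, h3]
          group
        rw [h2]
        exact N.mul_mem (hF0N _ hq.2) (N.inv_mem (hF0N _ hp.2))
      have h5 := hfr _ h1
      have h6 : i = j := by omega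
      subst h6
      rw [mul_left_cancel hpq]
  refine ⟨E, ?_, fun s hs => ?_⟩
  · rw [← Finset.card_pos, hcardE]
    exact Nat.mul_pos hn0 hF.card_pos
  set k0 := k s with hk0
  have hk0K : k0.natAbs ≤ K := hK s hs
  set I2 := (Finset.Ico (0 : ℤ) n).filter (fun i => ¬(0 ≤ k0 + i ∧ k0 + i < n)) with hI2
  set I3 := (Finset.Ico (0 : ℤ) n).filter (fun i => ¬(0 ≤ i - k0 ∧ i - k0 < n)) with hI3
  have hI2c : I2.card ≤ K := by
    have h1 : I2 ⊆ Finset.Ico ((n : ℤ) - k0) n ∪ Finset.Ico 0 (-k0) := by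
      intro i hi
      rw [hI2, Finset.mem_filter, Finset.mem_Ico] at hi
      rw [Finset.mem_union, Finset.mem_Ico, Finset.mem_Ico]
      omega
    refine (Finset.card_le_card h1).trans ((Finset.card_union_le _ _).trans ?_)
    rw [Int.card_Ico, Int.card_Ico]
    omega
  have hI3c : I3.card ≤ K := by
    have h1 : I3 ⊆ Finset.Ico ((n : ℤ) + k0) n ∪ Finset.Ico 0 k0 := by
      intro i hi
      rw [hI3, Finset.mem_filter, Finset.mem_Ico] at hi
      rw [Finset.mem_union, Finset.mem_Ico, Finset.mem_Ico]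
      omega
    refine (Finset.card_le_card h1).trans ((Finset.card_union_le _ _).trans ?_)
    rw [Int.card_Ico, Int.card_Ico]
    omega
  set U1 : Finset H := (Finset.Ico (0 : ℤ) n).biUnion
    fun i => (D (t ^ (-i) * c s * t ^ i)).image (t ^ (k0 + i) * ·) with hU1
  set U2 : Finset H := (I2 ×ˢ F0).image fun p => t ^ (k0 + p.1) * p.2 with hU2
  set U3 : Finset H := (I3 ×ˢ F0).image fun p => t ^ p.1 * p.2 with hU3
  have hU1c : U1.card ≤ n * b := by
    have h1 := Finset.card_biUnion_le_card_mul (Finset.Ico (0 : ℤ) n)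
      (fun i => (D (t ^ (-i) * c s * t ^ i)).image (t ^ (k0 + i) * ·)) b
      (fun i hi => Finset.card_image_le.trans (hD' s hs i hi))
    rw [Int.card_Ico] at h1
    have h2 : ((n : ℤ) - 0).toNat = n := by omega
    rw [h2] at h1
    exact h1
  have hU2c : U2.card ≤ K * F.card := by
    refine Finset.card_image_le.trans ?_
    rw [Finset.card_product, hcard0]
    exact Nat.mul_le_mul_right _ hI2c
  have hU3c : U3.card ≤ K * F.card := by
    refine Finset.card_image_le.trans ?_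
    rw [Finset.card_product, hcard0]
    exact Nat.mul_le_mul_right _ hI3c
  have hconj : ∀ (i : ℤ) (f : H), s * (t ^ i * f) = t ^ (k0 + i) * (t ^ (-i) * c s * t ^ i * f) := by
    intro i f
    conv_lhs => rw [hkc s, ← hk0]
    rw [zpow_add]
    group
  have hsub : ((s • (E : Set H)) ∆ (E : Set H)) ⊆ ((U1 ∪ (U2 ∪ U3) : Finset H) : Set H) := by
    rintro x (⟨hx1, hx2⟩ | ⟨hx1, hx2⟩)
    · obtain ⟨y, hy, rfl⟩ := hx1
      rw [Finset.mem_coe, hmemE] at hy
      obtain ⟨i, hi0, hin, f, hf, rfl⟩ := hy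
      have e1 : s • (t ^ i * f) = t ^ (k0 + i) * (t ^ (-i) * c s * t ^ i * f) := hconj i f
      simp only at hx2 ⊢
      rw [e1] at hx2 ⊢
      rw [Finset.mem_coe, Finset.mem_union, Finset.mem_union]
      by_cases hfF : t ^ (-i) * c s * t ^ i * f ∈ F0
      · right; left
        rw [hU2, Finset.mem_image]
        refine ⟨(i, t ^ (-i) * c s * t ^ i * f), ?_, rfl⟩
        rw [Finset.mem_product, hI2, Finset.mem_filter, Finset.mem_Ico]
        refine ⟨⟨⟨hi0, hin⟩, ?_⟩, hfF⟩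
        rintro ⟨h1, h2⟩
        apply hx2
        rw [Finset.mem_coe, hmemE]
        exact ⟨k0 + i, h1, h2, _, hfF, rfl⟩
      · left
        rw [hU1, Finset.mem_biUnion]
        refine ⟨i, Finset.mem_Ico.2 ⟨hi0, hin⟩, Finset.mem_image.2 ⟨_, ?_, rfl⟩⟩
        rw [Finset.mem_symmDiff]
        exact Or.inl ⟨Finset.mem_image.2 ⟨f, hf, rfl⟩, hfF⟩
    · rw [Finset.mem_coe, hmemE] at hx1
      obtain ⟨j, hj0, hjn, f, hf, rfl⟩ := hx1
      rw [Finset.mem_coe, Finset.mem_union, Finset.mem_union]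
      by_cases hj : 0 ≤ j - k0 ∧ j - k0 < n
      · left
        rw [hU1, Finset.mem_biUnion]
        refine ⟨j - k0, Finset.mem_Ico.2 hj, Finset.mem_image.2 ⟨f, ?_, ?_⟩⟩
        · rw [Finset.mem_symmDiff]
          refine Or.inr ⟨hf, ?_⟩
          intro h1
          obtain ⟨g, hg1, hg2⟩ := Finset.mem_image.1 h1
          apply hx2
          refine ⟨t ^ (j - k0) * g, ?_, ?_⟩
          · rw [Finset.mem_coe, hmemE]
            exact ⟨j - k0, hj.1, hj.2, g, hg1, rfl⟩
          · change s * (t ^ (j - k0) * g) = _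
            have hg3 : t ^ (-(j - k0)) * c s * t ^ (j - k0) * g = f := hg2
            rw [hconj, hg3]
            congr 2
            omega
        · change t ^ (k0 + (j - k0)) * f = t ^ j * f
          congr 2
          omega
      · right; right
        rw [hU3, Finset.mem_image]
        refine ⟨(j, f), ?_, rfl⟩
        rw [Finset.mem_product, hI3, Finset.mem_filter, Finset.mem_Ico]
        exact ⟨⟨⟨hj0, hjn⟩, hj⟩, hf⟩
  have h1 : (((s • (E : Set H)) ∆ (E : Set H)).ncard : ℝ) ≤ n * b + (K * F.card + K * F.card) := by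
    have h2 := Set.ncard_le_ncard hsub (Finset.finite_toSet _)
    rw [Set.ncard_coe_finset] at h2
    have h3 := (Finset.card_union_le U1 (U2 ∪ U3)).trans
      (Nat.add_le_add hU1c ((Finset.card_union_le U2 U3).trans (Nat.add_le_add hU2c hU3c)))
    exact_mod_cast h2.trans h3
  rw [hcardE]
  push_cast
  have hFp : (0 : ℝ) ≤ F.card := Nat.cast_nonneg _
  have hnp : (0 : ℝ) ≤ n := Nat.cast_nonneg _
  nlinarith [mul_le_mul_of_nonneg_left hbb hnp, mul_le_mul_of_nonneg_right hn1 hFp]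

end Pool.Agent.Q169.CT
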