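import Pool.Agent.Q169.PT.Pdc
import Pool.Agent.Q169.CT.Abs

/-!
Maps between permutation modules of coset spaces: right translations and projections.
-/

set_option autoImplicit false

namespace Pool.Agent.Q169.CT

open scoped Matrix
open Pool.Agent.H919R4.ZS (FinRes toRed)
open Pool.Agent.H919R4.AS (ringZ cobdZ coboundariesZ)
open Pool.Agent.Q169.FT.PD (ringZ_single)

noncomputable section

variable {G : Type} [Group G]

/-- the map of permutation modules -/
def M {C C' : Subgroup G} (f : G ⧸ C → G ⧸ C') : (G ⧸ C →₀ ℤ) →+ (G ⧸ C' →₀ ℤ) :=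
  Finsupp.mapDomain.addMonoidHom f

lemma M_single {C C' : Subgroup G} (f : G ⧸ C → G ⧸ C') (x : G ⧸ C) (r : ℤ) :
    M f (Finsupp.single x r) = Finsupp.single (f x) r := Finsupp.mapDomain_single

lemma ring_M {C C' : Subgroup G} (f : G ⧸ C → G ⧸ C') (hf : ∀ (h : G) x, f (h • x) = h • f x)
    (a : MonoidAlgebra ℤ G) (y : G ⧸ C →₀ ℤ) :
    ringZ G (G ⧸ C') a (M f y) = M f (ringZ G (G ⧸ C) a y) := by
  induction a using MonoidAlgebra.induction_linear with
  | zero => rw [map_zero, map_zero]; exact (map_zero (M f)).symm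
  | add u v hx hy =>
    rw [map_add, map_add]
    change ringZ G (G ⧸ C') u (M f y) + ringZ G (G ⧸ C') v (M f y) =
      M f (ringZ G (G ⧸ C) u y + ringZ G (G ⧸ C) v y)
    rw [hx, hy, map_add]
  | single g r =>
    induction y using Finsupp.induction_linear with
    | zero => simp
    | add x y hx hy => rw [map_add, map_add, hx, hy, map_add, map_add]
    | single x s => rw [M_single, ringZ_single, ringZ_single, M_single, hf]

/-- the map of vectors -/
def W {C C' : Subgroup G} (f : G ⧸ C → G ⧸ C') (n : ℕ) :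
    (Fin n → (G ⧸ C →₀ ℤ)) →+ (Fin n → (G ⧸ C' →₀ ℤ)) where
  toFun y := fun j => M f (y j)
  map_zero' := by funext j; exact map_zero _
  map_add' x y := by funext j; exact map_add _ _ _

lemma W_apply {C C' : Subgroup G} (f : G ⧸ C → G ⧸ C') (n : ℕ) (y : Fin n → (G ⧸ C →₀ ℤ))
    (j : Fin n) : W f n y j = M f (y j) := rfl

lemma cob_W (X : FinRes G) {C C' : Subgroup G} (f : G ⧸ C → G ⧸ C')
    (hf : ∀ (h : G) x, f (h • x) = h • f x) (i : ℕ) (y : Fin (X.n i) → (G ⧸ C →₀ ℤ)) :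
    cobdZ X (G ⧸ C') i (W f (X.n i) y) = W f (X.n (i + 1)) (cobdZ X (G ⧸ C) i y) := by
  funext k
  change ∑ j, ringZ G (G ⧸ C') (X.d i k j) (M f (y j)) = M f (∑ j, ringZ G (G ⧸ C) (X.d i k j) (y j))
  rw [map_sum]
  exact Finset.sum_congr rfl fun j _ => ring_M f hf _ _

/-- the elements which commute with `C` -/
def Cm (C : Subgroup G) (t : G) : Prop := ∀ c ∈ C, c * t = t * c

/-- right translation of cosets -/
def rho (C : Subgroup G) (t : G) (x : G ⧸ C) : G ⧸ C := QuotientGroup.mk (Quotient.out x * t)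

/-- projection of cosets -/
def pr (C C' : Subgroup G) (x : G ⧸ C) : G ⧸ C' := QuotientGroup.mk (Quotient.out x)

lemma out_mk (C : Subgroup G) (g : G) :
    ∃ c ∈ C, Quotient.out (QuotientGroup.mk g : G ⧸ C) = g * c := by
  have h2 : (QuotientGroup.mk g : G ⧸ C) =
      QuotientGroup.mk (Quotient.out (QuotientGroup.mk g : G ⧸ C)) := (Quotient.out_eq _).symm
  rw [QuotientGroup.eq] at h2
  exact ⟨_, h2, by group⟩

lemma rho_mk {C : Subgroup G} {t : G} (ht : Cm C t) (g : G) :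
    rho C t (QuotientGroup.mk g) = QuotientGroup.mk (g * t) := by
  obtain ⟨c, hc, h⟩ := out_mk C g
  rw [rho, h, eq_comm, QuotientGroup.eq]
  have h3 : (g * t)⁻¹ * (g * c * t) = c := by
    rw [mul_assoc g c t, ht c hc]; group
  rw [h3]
  exact hc

lemma pr_mk {C C' : Subgroup G} (h : C ≤ C') (g : G) :
    pr C C' (QuotientGroup.mk g) = QuotientGroup.mk g := by
  obtain ⟨c, hc, h1⟩ := out_mk C g
  rw [pr, h1, eq_comm, QuotientGroup.eq]
  have h3 : g⁻¹ * (g * c) = c := by group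
  rw [h3]
  exact h hc

lemma rho_smul {C : Subgroup G} {t : G} (ht : Cm C t) (h : G) (x : G ⧸ C) :
    rho C t (h • x) = h • rho C t x := by
  obtain ⟨g, rfl⟩ := QuotientGroup.mk_surjective x
  have h1 : h • (QuotientGroup.mk g : G ⧸ C) = QuotientGroup.mk (h * g) := rfl
  rw [h1, rho_mk ht, rho_mk ht]
  change _ = QuotientGroup.mk (h * (g * t))
  rw [mul_assoc]

lemma pr_smul {C C' : Subgroup G} (hC : C ≤ C') (h : G) (x : G ⧸ C) :
    pr C C' (h • x) = h • pr C C' x := by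
  obtain ⟨g, rfl⟩ := QuotientGroup.mk_surjective x
  have h1 : h • (QuotientGroup.mk g : G ⧸ C) = QuotientGroup.mk (h * g) := rfl
  rw [h1, pr_mk hC, pr_mk hC]
  rfl

lemma M_comp {C C' C'' : Subgroup G} (f : G ⧸ C → G ⧸ C') (g : G ⧸ C' → G ⧸ C'')
    (y : G ⧸ C →₀ ℤ) : M g (M f y) = M (g ∘ f) y := Finsupp.mapDomain_comp.symm

lemma M_id {C : Subgroup G} (f : G ⧸ C → G ⧸ C) (hf : ∀ x, f x = x) (y : G ⧸ C →₀ ℤ) :
    M f y = y := by
  have h1 : f = id := funext hf
  rw [h1]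
  exact Finsupp.mapDomain_id

lemma rho_rho {C : Subgroup G} {s t : G} (hs : Cm C s) (ht : Cm C t) (hst : s * t = t * s)
    (x : G ⧸ C) : rho C s (rho C t x) = rho C t (rho C s x) := by
  obtain ⟨g, rfl⟩ := QuotientGroup.mk_surjective x
  rw [rho_mk ht, rho_mk hs, rho_mk hs, rho_mk ht, mul_assoc, mul_assoc, hst]

lemma pr_rho {C C' : Subgroup G} (hC : C ≤ C') {s : G} (hs : Cm C s) (hs' : Cm C' s)
    (x : G ⧸ C) : pr C C' (rho C s x) = rho C' s (pr C C' x) := by
  obtain ⟨g, rfl⟩ := QuotientGroup.mk_surjective x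
  rw [rho_mk hs, pr_mk hC, pr_mk hC, rho_mk hs']

lemma pr_rho' {C C' : Subgroup G} (hC : C ≤ C') {t : G} (ht : Cm C t) (hm : t ∈ C')
    (x : G ⧸ C) : pr C C' (rho C t x) = pr C C' x := by
  obtain ⟨g, rfl⟩ := QuotientGroup.mk_surjective x
  rw [rho_mk ht, pr_mk hC, pr_mk hC, eq_comm, QuotientGroup.eq]
  have h3 : g⁻¹ * (g * t) = t := by group
  rw [h3]
  exact hm

lemma pr_surj {C C' : Subgroup G} (hC : C ≤ C') : Function.Surjective (pr C C') := by
  intro x
  obtain ⟨g, rfl⟩ := QuotientGroup.mk_surjective x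
  exact ⟨QuotientGroup.mk g, pr_mk hC g⟩

lemma W_surj {C C' : Subgroup G} (hC : C ≤ C') (n : ℕ) : Function.Surjective (W (pr C C') n) := by
  intro y
  have h1 := Finsupp.mapDomain_surjective (M := ℤ) (pr_surj hC)
  choose x hx using fun j => h1 (y j)
  exact ⟨x, funext hx⟩

/-- the section -/
def Sc (C C' : Subgroup G) (x : G ⧸ C') : G ⧸ C := QuotientGroup.mk (Quotient.out x)

lemma M_pow {C : Subgroup G} {t : G} (ht : Cm C t) (k : ℤ) (z : G ⧸ C →₀ ℤ) :
    ∃ w, M (rho C (t ^ k)) z - z = M (rho C t) w - w := by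
  have hc : ∀ k : ℤ, Cm C (t ^ k) := by
    intro k c hc
    exact ((show Commute c t from ht c hc).zpow_right k).eq
  have hmul : ∀ (a b : ℤ) (z : G ⧸ C →₀ ℤ),
      M (rho C (t ^ a)) (M (rho C (t ^ b)) z) = M (rho C (t ^ (b + a))) z := by
    intro a b z
    rw [M_comp]
    congr 2
    funext x
    obtain ⟨g, rfl⟩ := QuotientGroup.mk_surjective x
    change rho C _ (rho C _ _) = _
    rw [rho_mk (hc b), rho_mk (hc a), rho_mk (hc _), mul_assoc, zpow_add]
  have hone : ∀ z : G ⧸ C →₀ ℤ, M (rho C (t ^ (0 : ℤ))) z = z := by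
    intro z
    apply M_id
    intro x
    obtain ⟨g, rfl⟩ := QuotientGroup.mk_surjective x
    rw [rho_mk (hc 0), zpow_zero, mul_one]
  have h1 : ∀ z : G ⧸ C →₀ ℤ, M (rho C (t ^ (1 : ℤ))) z = M (rho C t) z := by
    intro z
    rw [zpow_one]
  have hn : ∀ (k : ℕ) (z : G ⧸ C →₀ ℤ), ∃ w, M (rho C (t ^ (k : ℤ))) z - z = M (rho C t) w - w := by
    intro k
    induction k with
    | zero => intro z; exact ⟨0, by rw [Nat.cast_zero, hone]; simp⟩
    | succ k ih =>
      intro z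
      obtain ⟨w, hw⟩ := ih z
      refine ⟨M (rho C (t ^ (k : ℤ))) z + w, ?_⟩
      rw [Nat.cast_succ, ← hmul 1 k, h1, map_add]
      linear_combination (norm := module) hw
  obtain ⟨n, rfl | rfl⟩ := k.eq_nat_or_neg
  · exact hn n z
  · obtain ⟨w, hw⟩ := hn n (M (rho C (t ^ (-(n : ℤ)))) z)
    refine ⟨-w, ?_⟩
    have h2 : M (rho C (t ^ (n : ℤ))) (M (rho C (t ^ (-(n : ℤ)))) z) = z := by
      rw [hmul, neg_add_cancel, hone]
    rw [h2] at hw
    rw [map_neg]
    linear_combination (norm := module) -hw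

lemma ker_M' {C C' : Subgroup G} (hC : C ≤ C') {t : G} (ht : Cm C t)
    (hg : ∀ c' ∈ C', ∃ k : ℤ, ∃ c ∈ C, c' = t ^ k * c) (a : G ⧸ C →₀ ℤ) :
    ∃ u, a - M (Sc C C') (M (pr C C') a) = M (rho C t) u - u := by
  induction a using Finsupp.induction_linear with
  | zero => exact ⟨0, by simp⟩
  | add x y hx hy =>
    obtain ⟨u, hu⟩ := hx
    obtain ⟨v, hv⟩ := hy
    refine ⟨u + v, ?_⟩
    rw [map_add, map_add, map_add]
    linear_combination (norm := module) hu + hv
  | single x r =>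
    obtain ⟨g, rfl⟩ := QuotientGroup.mk_surjective x
    rw [M_single, M_single, pr_mk hC]
    obtain ⟨c', hc', h1⟩ := out_mk C' g
    obtain ⟨k, c, hc, rfl⟩ := hg c' hc'
    have hck : Cm C (t ^ k) := fun c hc => ((show Commute c t from ht c hc).zpow_right k).eq
    have h2 : Sc C C' (QuotientGroup.mk g) = rho C (t ^ k) (QuotientGroup.mk g) := by
      rw [rho_mk hck, Sc, h1, eq_comm, QuotientGroup.eq]
      have h3 : (g * t ^ k)⁻¹ * (g * (t ^ k * c)) = c := by group
      rw [h3]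
      exact hc
    obtain ⟨w, hw⟩ := M_pow ht k (Finsupp.single (QuotientGroup.mk g : G ⧸ C) r)
    rw [M_single] at hw
    rw [h2]
    refine ⟨-w, ?_⟩
    rw [map_neg]
    linear_combination (norm := module) -hw

lemma ker_W {C C' : Subgroup G} (hC : C ≤ C') {t : G} (ht : Cm C t)
    (hg : ∀ c' ∈ C', ∃ k : ℤ, ∃ c ∈ C, c' = t ^ k * c) (n : ℕ) (y : Fin n → (G ⧸ C →₀ ℤ))
    (hy : W (pr C C') n y = 0) : ∃ u, y = W (rho C t) n u - u := by
  choose u hu using fun j => ker_M' hC ht hg (y j)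
  refine ⟨u, funext fun j => ?_⟩
  have h1 : M (pr C C') (y j) = 0 := congrFun hy j
  have h2 := hu j
  rw [h1, map_zero, sub_zero] at h2
  exact h2

lemma fix_M {C : Subgroup G} {t : G} (ht : Cm C t) (hfr : ∀ m : ℤ, t ^ m ∈ C → m = 0)
    (a : G ⧸ C →₀ ℤ) (h : M (rho C t) a = a) : a = 0 := by
  have hc : ∀ k : ℤ, Cm C (t ^ k) := fun k c hc =>
    ((show Commute c t from ht c hc).zpow_right k).eq
  have hinj : Function.Injective (rho C t) := by
    intro x y hxy
    obtain ⟨g, rfl⟩ := QuotientGroup.mk_surjective x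
    obtain ⟨k, rfl⟩ := QuotientGroup.mk_surjective y
    rw [rho_mk ht, rho_mk ht, QuotientGroup.eq] at hxy
    rw [QuotientGroup.eq]
    have h3 : (g * t)⁻¹ * (k * t) = t⁻¹ * (g⁻¹ * k) * t := by group
    rw [h3] at hxy
    have h4 : Cm C (t⁻¹) := by
      have := hc (-1)
      rwa [zpow_neg_one] at this
    have h5 := h4 _ hxy
    have h6 : t⁻¹ * (g⁻¹ * k) * t * t⁻¹ = t⁻¹ * (g⁻¹ * k) := by group
    rw [h6] at h5
    have h7 : g⁻¹ * k = t⁻¹ * (g⁻¹ * k) * t := mul_left_cancel h5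
    rw [h7]
    exact hxy
  have h1 : ∀ x, a (rho C t x) = a x := by
    intro x
    conv_lhs => rw [← h]
    exact Finsupp.mapDomain_apply hinj a x
  have h2 : ∀ (k : ℕ) (g : G), a (QuotientGroup.mk (g * t ^ k)) = a (QuotientGroup.mk g) := by
    intro k
    induction k with
    | zero => intro g; rw [pow_zero, mul_one]
    | succ k ih =>
      intro g
      rw [pow_succ, ← mul_assoc, ← rho_mk ht, h1, ih]
  by_contra hne
  obtain ⟨x, hx⟩ := Finsupp.ne_iff.1 hne
  rw [Finsupp.zero_apply] at hx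
  obtain ⟨g, rfl⟩ := QuotientGroup.mk_surjective x
  have h3 : Set.Infinite (a.support : Set (G ⧸ C)) := by
    refine Set.infinite_of_injective_forall_mem
      (f := fun k : ℕ => (QuotientGroup.mk (g * t ^ k) : G ⧸ C)) ?_ fun k => ?_
    · intro x y hxy
      simp only at hxy
      rw [QuotientGroup.eq] at hxy
      have h4 : (g * t ^ x)⁻¹ * (g * t ^ y) = t ^ ((y : ℤ) - x) := by
        rw [zpow_sub, zpow_natCast, zpow_natCast, mul_inv_rev]
        have h5 : (t ^ x)⁻¹ * g⁻¹ * (g * t ^ y) = (t ^ x)⁻¹ * t ^ y := by group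
        rw [h5]
        exact (((Commute.refl t).pow_pow x y).inv_left).eq
      rw [h4] at hxy
      have := hfr _ hxy
      omega
    · rw [Finset.mem_coe, Finsupp.mem_support_iff, h2]
      exact hx
  exact h3 a.support.finite_toSet

lemma fix_W {C : Subgroup G} {t : G} (ht : Cm C t) (hfr : ∀ m : ℤ, t ^ m ∈ C → m = 0) (n : ℕ)
    (y : Fin n → (G ⧸ C →₀ ℤ)) (h : W (rho C t) n y = y) : y = 0 := by
  funext j
  exact fix_M ht hfr (y j) (congrFun h j)

end

end Pool.Agent.Q169.CT
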