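import Mathlib

/-!
A finitely generated group has finitely many subgroups of a given finite index.
-/

set_option autoImplicit false

namespace Pool.Agent.Q169.CT

theorem finite_hom (C P : Type) [Group C] [Group P] [Finite P] (S : Finset C)
    (hS : Subgroup.closure (S : Set C) = ⊤) : Finite (C →* P) := by
  refine Finite.of_injective (fun f : C →* P => fun s : S => f s) ?_
  intro f g hfg
  refine MonoidHom.eq_of_eqOn_dense hS ?_
  intro s hs
  exact congrFun hfg ⟨s, hs⟩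

theorem finite_index (C : Type) [Group C] (S : Finset C)
    (hS : Subgroup.closure (S : Set C) = ⊤) (m : ℕ) (hm : m ≠ 0) :
    Finite {H : Subgroup C // H.index = m} := by
  have h1 : Finite (C →* Equiv.Perm (Fin m)) := finite_hom C _ S hS
  have he : ∀ H : {H : Subgroup C // H.index = m}, Nonempty ((C ⧸ H.1) ≃ Fin m) := by
    rintro ⟨H, hH⟩
    have h2 : Nat.card (C ⧸ H) = m := hH
    have h3 : Finite (C ⧸ H) := Nat.finite_of_card_ne_zero (by rw [h2]; exact hm)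
    exact ⟨Finite.equivFinOfCardEq h2⟩
  let e := fun H : {H : Subgroup C // H.index = m} => (he H).some
  let Φ : {H : Subgroup C // H.index = m} → (C →* Equiv.Perm (Fin m)) × Fin m := fun H =>
    ((e H).permCongrHom.toMonoidHom.comp (MulAction.toPermHom C (C ⧸ H.1)),
      e H (QuotientGroup.mk 1))
  have hΦ : ∀ (H : {H : Subgroup C // H.index = m}) (c : C),
      (Φ H).1 c (Φ H).2 = (Φ H).2 ↔ c ∈ H.1 := by
    intro H c
    change e H (c • (e H).symm (e H (QuotientGroup.mk 1))) = e H (QuotientGroup.mk 1) ↔ _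
    rw [Equiv.symm_apply_apply, (e H).injective.eq_iff]
    change (QuotientGroup.mk (c * 1) : C ⧸ H.1) = QuotientGroup.mk 1 ↔ _
    rw [QuotientGroup.eq, mul_one, mul_one, inv_mem_iff]
  refine Finite.of_injective Φ ?_
  intro H H' h
  apply Subtype.ext
  ext c
  rw [← hΦ H c, ← hΦ H' c, h]

/-- If `t` normalizes the finitely generated group `C`, then a power of `t` normalizes the subgroup
`D` of finite index in `C`. -/
theorem exists_power {G : Type} [Group G] (C D : Subgroup G) (t : G) (S : Finset C)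
    (hS : Subgroup.closure (S : Set C) = ⊤)
    (ht : ∀ k : ℤ, ∀ c ∈ C, t ^ (-k) * c * t ^ k ∈ C) (hD : D ≤ C) (hi : D.relIndex C ≠ 0) :
    ∃ N : ℕ, 0 < N ∧ (∀ c ∈ D, (t ^ N)⁻¹ * c * t ^ N ∈ D) ∧ ∀ c ∈ D, t ^ N * c * (t ^ N)⁻¹ ∈ D := by
  -- conjugation by `t ^ j`
  let α : ℕ → (C →* C) := fun j =>
    { toFun := fun c => ⟨t ^ (-(-(j : ℤ))) * c * t ^ (-(j : ℤ)), ht (-(j : ℤ)) c c.2⟩
      map_one' := by
        apply Subtype.ext
        simp
      map_mul' := fun a b => by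
        apply Subtype.ext
        simp only [Subgroup.coe_mul, neg_neg, zpow_neg]
        group }
  have hα : ∀ j (c : C), ((α j c : C) : G) = t ^ j * c * (t ^ j)⁻¹ := by
    intro j c
    change t ^ (-(-(j : ℤ))) * (c : G) * t ^ (-(j : ℤ)) = _
    rw [neg_neg, zpow_neg, zpow_natCast]
  have hsurj : ∀ j, Function.Surjective (α j) := by
    intro j c
    refine ⟨⟨t ^ (-(j : ℤ)) * c * t ^ (j : ℤ), ht j c c.2⟩, Subtype.ext ?_⟩
    rw [hα]
    change t ^ j * (t ^ (-(j : ℤ)) * (c : G) * t ^ (j : ℤ)) * (t ^ j)⁻¹ = c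
    rw [zpow_neg, zpow_natCast]
    group
  have hfin := finite_index C S hS (D.relIndex C) hi
  let f : ℕ → {H : Subgroup C // H.index = D.relIndex C} := fun j =>
    ⟨(D.subgroupOf C).comap (α j), by rw [Subgroup.index_comap_of_surjective _ (hsurj j)]; rfl⟩
  obtain ⟨i, j, hij, hfij⟩ := Finite.exists_ne_map_eq_of_infinite f
  have key : ∀ i j : ℕ, i < j → f i = f j →
      ∃ N : ℕ, 0 < N ∧ (∀ c ∈ D, (t ^ N)⁻¹ * c * t ^ N ∈ D) ∧
        ∀ c ∈ D, t ^ N * c * (t ^ N)⁻¹ ∈ D := by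
    intro i j hij hfij
    have hmem : ∀ c : C, t ^ i * (c : G) * (t ^ i)⁻¹ ∈ D ↔ t ^ j * (c : G) * (t ^ j)⁻¹ ∈ D := by
      intro c
      have h1 : c ∈ (f i).1 ↔ c ∈ (f j).1 := by rw [hfij]
      have h2 : ∀ k : ℕ, c ∈ (f k).1 ↔ t ^ k * (c : G) * (t ^ k)⁻¹ ∈ D := by
        intro k
        change ((α k c : C) : G) ∈ D ↔ _
        rw [hα]
      rw [h2, h2] at h1
      exact h1
    obtain ⟨N, rfl⟩ : ∃ N, j = i + N := ⟨j - i, by omega⟩
    refine ⟨N, by omega, ?_, ?_⟩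
    · intro x hx
      have h1 := (hmem ⟨t ^ (-((i + N : ℕ) : ℤ)) * x * t ^ ((i + N : ℕ) : ℤ), ht _ x (hD hx)⟩).2
        (by
          change t ^ (i + N) * (t ^ (-((i + N : ℕ) : ℤ)) * x * t ^ ((i + N : ℕ) : ℤ)) *
            (t ^ (i + N))⁻¹ ∈ D
          rw [zpow_neg, zpow_natCast]
          have h2 : t ^ (i + N) * ((t ^ (i + N))⁻¹ * x * t ^ (i + N)) * (t ^ (i + N))⁻¹ = x := by
            group
          rw [h2]
          exact hx)
      change t ^ i * (t ^ (-((i + N : ℕ) : ℤ)) * x * t ^ ((i + N : ℕ) : ℤ)) * (t ^ i)⁻¹ ∈ D at h1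
      rw [zpow_neg, zpow_natCast, add_comm i N, pow_add] at h1
      have h2 : t ^ i * ((t ^ N * t ^ i)⁻¹ * x * (t ^ N * t ^ i)) * (t ^ i)⁻¹ =
          (t ^ N)⁻¹ * x * t ^ N := by
        group
      rwa [h2] at h1
    · intro x hx
      have h1 := (hmem ⟨t ^ (-(i : ℤ)) * x * t ^ (i : ℤ), ht _ x (hD hx)⟩).1
        (by
          change t ^ i * (t ^ (-(i : ℤ)) * x * t ^ (i : ℤ)) * (t ^ i)⁻¹ ∈ D
          rw [zpow_neg, zpow_natCast]
          have h2 : t ^ i * ((t ^ i)⁻¹ * x * t ^ i) * (t ^ i)⁻¹ = x := by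
            group
          rw [h2]
          exact hx)
      change t ^ (i + N) * (t ^ (-(i : ℤ)) * x * t ^ (i : ℤ)) * (t ^ (i + N))⁻¹ ∈ D at h1
      rw [zpow_neg, zpow_natCast, add_comm i N, pow_add] at h1
      have h2 : t ^ N * t ^ i * ((t ^ i)⁻¹ * x * t ^ i) * (t ^ N * t ^ i)⁻¹ =
          t ^ N * x * (t ^ N)⁻¹ := by
        group
      rwa [h2] at h1
  rcases Nat.lt_or_gt_of_ne hij with h | h
  · exact key i j h hfij
  · exact key j i h hfij.symm

end Pool.Agent.Q169.CT
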