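import Pool.Agent.Q169.CT.Core
import Pool.Agent.Q169.CT.Abs2
import Pool.Agent.Q169.CT.Am

/-!
Right translations of the cosets of `C` by elements which normalize `C`.
-/

set_option autoImplicit false

namespace Pool.Agent.Q169.CT

open scoped Matrix
open Pool.Agent.H919R4.ZS (FinRes toRed)
open Pool.Agent.H919R4.AS (ringZ cobdZ coboundariesZ)
open Pool.Agent.H496R3.ZS (IsAmenable)
open Pool.Agent.Q169.PT (Mk Sec Mk_single Sec_single Mk_Sec cobdZ_Mk)

noncomputable section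

variable {G : Type} [Group G]

/-- all powers of `t` normalize `C` -/
def Nm (C : Subgroup G) (t : G) : Prop := ∀ k : ℤ, ∀ c ∈ C, t ^ (-k) * c * t ^ k ∈ C

lemma Nm_one {C : Subgroup G} {t : G} (ht : Nm C t) : ∀ c ∈ C, t⁻¹ * c * t ∈ C := by
  intro c hc
  have := ht 1 c hc
  rwa [zpow_neg_one, zpow_one] at this

lemma Nm_of {C : Subgroup G} {t : G} (h1 : ∀ c ∈ C, t⁻¹ * c * t ∈ C)
    (h2 : ∀ c ∈ C, t * c * t⁻¹ ∈ C) : Nm C t := by
  have h3 : ∀ (n : ℕ), ∀ c ∈ C, t ^ (-(n : ℤ)) * c * t ^ (n : ℤ) ∈ C := by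
    intro n
    induction n with
    | zero => intro c hc; simpa using hc
    | succ n ih =>
      intro c hc
      have h4 := h1 _ (ih c hc)
      have h5 : t⁻¹ * (t ^ (-(n : ℤ)) * c * t ^ (n : ℤ)) * t =
          t ^ (-((n + 1 : ℕ) : ℤ)) * c * t ^ ((n + 1 : ℕ) : ℤ) := by
        rw [Nat.cast_succ, neg_add_rev, zpow_add, zpow_add, zpow_neg_one, zpow_one]
        group
      rwa [h5] at h4
  have h3' : ∀ (n : ℕ), ∀ c ∈ C, t ^ (n : ℤ) * c * t ^ (-(n : ℤ)) ∈ C := by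
    intro n
    induction n with
    | zero => intro c hc; simpa using hc
    | succ n ih =>
      intro c hc
      have h4 := h2 _ (ih c hc)
      have h5 : t * (t ^ (n : ℤ) * c * t ^ (-(n : ℤ))) * t⁻¹ =
          t ^ ((n + 1 : ℕ) : ℤ) * c * t ^ (-((n + 1 : ℕ) : ℤ)) := by
        have e1 : t ^ ((n + 1 : ℕ) : ℤ) = t * t ^ (n : ℤ) := by
          rw [Nat.cast_succ, add_comm, zpow_add, zpow_one]
        have e2 : t ^ (-((n + 1 : ℕ) : ℤ)) = t ^ (-(n : ℤ)) * t⁻¹ := by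
          rw [zpow_neg, e1, mul_inv_rev, zpow_neg]
        rw [e1, e2]
        group
      rwa [h5] at h4
  intro k c hc
  obtain ⟨n, rfl | rfl⟩ := k.eq_nat_or_neg
  · exact h3 n c hc
  · rw [neg_neg]
    exact h3' n c hc

lemma Nm_pow {C : Subgroup G} {t : G} (ht : Nm C t) (k : ℤ) : Nm C (t ^ k) := by
  intro m c hc
  rw [← zpow_mul, ← zpow_mul, mul_neg]
  exact ht (k * m) c hc

lemma rho_mk' {C : Subgroup G} {t : G} (ht : Nm C t) (g : G) :
    rho C t (QuotientGroup.mk g) = QuotientGroup.mk (g * t) := by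
  obtain ⟨c, hc, h⟩ := out_mk C g
  rw [rho, h, eq_comm, QuotientGroup.eq]
  have h3 : (g * t)⁻¹ * (g * c * t) = t⁻¹ * c * t := by group
  rw [h3]
  exact Nm_one ht c hc

lemma rho_smul' {C : Subgroup G} {t : G} (ht : Nm C t) (h : G) (x : G ⧸ C) :
    rho C t (h • x) = h • rho C t x := by
  obtain ⟨g, rfl⟩ := QuotientGroup.mk_surjective x
  have h1 : h • (QuotientGroup.mk g : G ⧸ C) = QuotientGroup.mk (h * g) := rfl
  rw [h1, rho_mk' ht, rho_mk' ht]
  change _ = QuotientGroup.mk (h * (g * t))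
  rw [mul_assoc]

lemma pr_rho2 {C C' : Subgroup G} (hC : C ≤ C') {t : G} (ht : Nm C t) (hm : t ∈ C')
    (x : G ⧸ C) : pr C C' (rho C t x) = pr C C' x := by
  obtain ⟨g, rfl⟩ := QuotientGroup.mk_surjective x
  rw [rho_mk' ht, pr_mk hC, pr_mk hC, eq_comm, QuotientGroup.eq]
  have h3 : g⁻¹ * (g * t) = t := by group
  rw [h3]
  exact hm

lemma M_mul {C : Subgroup G} {s t : G} (hs : Nm C s) (ht : Nm C t) (hst : Nm C (s * t))
    (z : G ⧸ C →₀ ℤ) : M (rho C t) (M (rho C s) z) = M (rho C (s * t)) z := by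
  rw [M_comp]
  congr 2
  funext x
  obtain ⟨g, rfl⟩ := QuotientGroup.mk_surjective x
  change rho C _ (rho C _ _) = _
  rw [rho_mk' hs, rho_mk' ht, rho_mk' hst, mul_assoc]

lemma M_one {C : Subgroup G} (h1 : Nm C (1 : G)) (z : G ⧸ C →₀ ℤ) : M (rho C (1 : G)) z = z := by
  apply M_id
  intro x
  obtain ⟨g, rfl⟩ := QuotientGroup.mk_surjective x
  rw [rho_mk' h1, mul_one]

lemma M_pow' {C : Subgroup G} {t : G} (ht : Nm C t) (k : ℤ) (z : G ⧸ C →₀ ℤ) :
    ∃ w, M (rho C (t ^ k)) z - z = M (rho C t) w - w := by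
  have hmul : ∀ (a b : ℤ) (z : G ⧸ C →₀ ℤ),
      M (rho C (t ^ a)) (M (rho C (t ^ b)) z) = M (rho C (t ^ (b + a))) z := by
    intro a b z
    have h1 := Nm_pow ht (b + a)
    rw [zpow_add] at h1 ⊢
    exact M_mul (Nm_pow ht b) (Nm_pow ht a) h1 z
  have hone : ∀ z : G ⧸ C →₀ ℤ, M (rho C (t ^ (0 : ℤ))) z = z := by
    intro z
    have h1 := Nm_pow ht 0
    rw [zpow_zero] at h1 ⊢
    exact M_one h1 z
  have h1 : ∀ z : G ⧸ C →₀ ℤ, M (rho C (t ^ (1 : ℤ))) z = M (rho C t) z := by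
    intro z
    rw [zpow_one]
  have hn : ∀ (k : ℕ) (z : G ⧸ C →₀ ℤ), ∃ w, M (rho C (t ^ (k : ℤ))) z - z = M (rho C t) w - w := by
    intro k
    induction k with
    | zero => intro z; exact ⟨0, by rw [Nat.cast_zero, hone]; simp⟩
    | succ k ih =>
      intro z
      obtain ⟨w, hw⟩ := ih z
      refine ⟨M (rho C (t ^ (k : ℤ))) z + w, ?_⟩
      rw [Nat.cast_succ, ← hmul 1 k, h1, map_add]
      linear_combination (norm := module) hw
  obtain ⟨n, rfl | rfl⟩ := k.eq_nat_or_neg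
  · exact hn n z
  · obtain ⟨w, hw⟩ := hn n (M (rho C (t ^ (-(n : ℤ)))) z)
    refine ⟨-w, ?_⟩
    have h2 : M (rho C (t ^ (n : ℤ))) (M (rho C (t ^ (-(n : ℤ)))) z) = z := by
      rw [hmul, neg_add_cancel, hone]
    rw [h2] at hw
    rw [map_neg]
    linear_combination (norm := module) -hw

lemma ker_M2 {C C' : Subgroup G} (hC : C ≤ C') {t : G} (ht : Nm C t)
    (hg : ∀ c' ∈ C', ∃ k : ℤ, ∃ c ∈ C, c' = t ^ k * c) (a : G ⧸ C →₀ ℤ) :
    ∃ u, a - M (Sc C C') (M (pr C C') a) = M (rho C t) u - u := by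
  induction a using Finsupp.induction_linear with
  | zero => exact ⟨0, by simp⟩
  | add x y hx hy =>
    obtain ⟨u, hu⟩ := hx
    obtain ⟨v, hv⟩ := hy
    refine ⟨u + v, ?_⟩
    rw [map_add, map_add, map_add]
    linear_combination (norm := module) hu + hv
  | single x r =>
    obtain ⟨g, rfl⟩ := QuotientGroup.mk_surjective x
    rw [M_single, M_single, pr_mk hC]
    obtain ⟨c', hc', h1⟩ := out_mk C' g
    obtain ⟨k, c, hc, rfl⟩ := hg c' hc'
    have h2 : Sc C C' (QuotientGroup.mk g) = rho C (t ^ k) (QuotientGroup.mk g) := by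
      rw [rho_mk' (Nm_pow ht k), Sc, h1, eq_comm, QuotientGroup.eq]
      have h3 : (g * t ^ k)⁻¹ * (g * (t ^ k * c)) = c := by group
      rw [h3]
      exact hc
    obtain ⟨w, hw⟩ := M_pow' ht k (Finsupp.single (QuotientGroup.mk g : G ⧸ C) r)
    rw [M_single] at hw
    rw [h2]
    refine ⟨-w, ?_⟩
    rw [map_neg]
    linear_combination (norm := module) -hw

lemma ker_W2 {C C' : Subgroup G} (hC : C ≤ C') {t : G} (ht : Nm C t)
    (hg : ∀ c' ∈ C', ∃ k : ℤ, ∃ c ∈ C, c' = t ^ k * c) (n : ℕ) (y : Fin n → (G ⧸ C →₀ ℤ))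
    (hy : W (pr C C') n y = 0) : ∃ u, y = W (rho C t) n u - u := by
  choose u hu using fun j => ker_M2 hC ht hg (y j)
  refine ⟨u, funext fun j => ?_⟩
  have h1 : M (pr C C') (y j) = 0 := congrFun hy j
  have h2 := hu j
  rw [h1, map_zero, sub_zero] at h2
  exact h2

lemma fix_M2 {C : Subgroup G} {t : G} (ht : Nm C t) (hfr : ∀ m : ℤ, t ^ m ∈ C → m = 0)
    (a : G ⧸ C →₀ ℤ) (h : M (rho C t) a = a) : a = 0 := by
  have hinj : Function.Injective (rho C t) := by
    intro x y hxy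
    obtain ⟨g, rfl⟩ := QuotientGroup.mk_surjective x
    obtain ⟨k, rfl⟩ := QuotientGroup.mk_surjective y
    rw [rho_mk' ht, rho_mk' ht, QuotientGroup.eq] at hxy
    rw [QuotientGroup.eq]
    have h4 := ht (-1) _ hxy
    have h6 : t ^ (-(-1 : ℤ)) * ((g * t)⁻¹ * (k * t)) * t ^ (-1 : ℤ) = g⁻¹ * k := by
      rw [neg_neg, zpow_one, zpow_neg_one]; group
    rwa [h6] at h4
  have h1 : ∀ x, a (rho C t x) = a x := by
    intro x
    conv_lhs => rw [← h]
    exact Finsupp.mapDomain_apply hinj a x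
  have h2 : ∀ (k : ℕ) (g : G), a (QuotientGroup.mk (g * t ^ k)) = a (QuotientGroup.mk g) := by
    intro k
    induction k with
    | zero => intro g; rw [pow_zero, mul_one]
    | succ k ih =>
      intro g
      rw [pow_succ, ← mul_assoc, ← rho_mk' ht, h1, ih]
  by_contra hne
  obtain ⟨x, hx⟩ := Finsupp.ne_iff.1 hne
  rw [Finsupp.zero_apply] at hx
  obtain ⟨g, rfl⟩ := QuotientGroup.mk_surjective x
  have h3 : Set.Infinite (a.support : Set (G ⧸ C)) := by
    refine Set.infinite_of_injective_forall_mem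
      (f := fun k : ℕ => (QuotientGroup.mk (g * t ^ k) : G ⧸ C)) ?_ fun k => ?_
    · intro x y hxy
      simp only at hxy
      rw [QuotientGroup.eq] at hxy
      have h4 : (g * t ^ x)⁻¹ * (g * t ^ y) = t ^ ((y : ℤ) - x) := by
        rw [zpow_sub, zpow_natCast, zpow_natCast, mul_inv_rev]
        have h5 : (t ^ x)⁻¹ * g⁻¹ * (g * t ^ y) = (t ^ x)⁻¹ * t ^ y := by group
        rw [h5]
        exact (((Commute.refl t).pow_pow x y).inv_left).eq
      rw [h4] at hxy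
      have := hfr _ hxy
      omega
    · rw [Finset.mem_coe, Finsupp.mem_support_iff, h2]
      exact hx
  exact h3 a.support.finite_toSet

lemma fix_W2 {C : Subgroup G} {t : G} (ht : Nm C t) (hfr : ∀ m : ℤ, t ^ m ∈ C → m = 0) (n : ℕ)
    (y : Fin n → (G ⧸ C →₀ ℤ)) (h : W (rho C t) n y = y) : y = 0 := by
  funext j
  exact fix_M2 ht hfr (y j) (congrFun h j)

lemma cobdZ_cobdZ' (X : FinRes G) (C : Subgroup G) (i : ℕ) (y : Fin (X.n i) → (G ⧸ C →₀ ℤ)) :
    cobdZ X (G ⧸ C) (i + 1) (cobdZ X (G ⧸ C) i y) = 0 := by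
  have h1 : y = fun j => Mk C (Sec C (y j)) := funext fun j => (Mk_Sec C (y j)).symm
  rw [h1, cobdZ_Mk, cobdZ_Mk, Matrix.mulVec_mulVec, Pool.Agent.H919R4.ZS.d_mul_d,
    Matrix.zero_mulVec]
  funext k
  exact map_zero _

/-- The step from `D` to the group generated by `D` and `u²`. -/
theorem oz_step (X : FinRes G) (D D' : Subgroup G) (h1 : D ≤ D') (u : G) (hu : Nm D u)
    (ht : u * u ∈ D') (hg : ∀ c' ∈ D', ∃ k : ℤ, ∃ c ∈ D, c' = (u * u) ^ k * c)
    (hfr : ∀ m : ℤ, (u * u) ^ m ∈ D → m = 0) (k : ℕ)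
    (h : OZ (cobdZ X (G ⧸ D)) (k + 1)) : OZ (cobdZ X (G ⧸ D')) k := by
  obtain ⟨h3, z, hz, hgen, hfree⟩ := h
  have huu : Nm D (u * u) := by
    have := Nm_pow hu 2
    rwa [zpow_two] at this
  have hui : Nm D u⁻¹ := by
    have := Nm_pow hu (-1)
    rwa [zpow_neg_one] at this
  have h1n : Nm D (u⁻¹ * u) := by
    rw [inv_mul_cancel]
    intro k c hc
    simpa using hc
  have hsq := sq_act (dA := cobdZ X (G ⧸ D)) (k + 1) z hz hgen hfree
    (fun i => W (rho D u) (X.n i)) (fun i => W (rho D u⁻¹) (X.n i))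
    (fun i x => cob_W X _ (rho_smul' hu) i x) (fun i x => cob_W X _ (rho_smul' hui) i x) (by
      funext j
      change M _ (M _ _) = _
      rw [M_mul hui hu h1n, inv_mul_cancel]
      rw [inv_mul_cancel] at h1n
      exact M_one h1n _)
  have hTz : W (rho D (u * u)) (X.n (k + 1)) z - z ∈ BS (cobdZ X (G ⧸ D)) (k + 1) := by
    have h5 : W (rho D u) (X.n (k + 1)) (W (rho D u) (X.n (k + 1)) z) =
        W (rho D (u * u)) (X.n (k + 1)) z := by
      funext j
      change M _ (M _ _) = M _ _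
      exact M_mul hu hu huu _
    rw [← h5]
    exact hsq
  exact step2 (dA := cobdZ X (G ⧸ D)) (dB := cobdZ X (G ⧸ D')) (fun i x => cobdZ_cobdZ' X D i x)
    (fun i => W (rho D (u * u)) (X.n i)) (fun i => W (pr D D') (X.n i))
    (fun i x => cob_W X _ (rho_smul' huu) i x) (fun i x => cob_W X _ (pr_smul h1) i x)
    (fun i => W_surj h1 _)
    (fun i x => by
      funext j
      change M _ (M _ _) = M _ _
      rw [M_comp]
      congr 2
      funext y
      exact pr_rho2 h1 huu ht y)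
    (fun i x hx => ker_W2 h1 huu hg _ x hx) (fun i x hx => fix_W2 huu hfr _ x hx)
    k h3 z hgen hfree hTz

end

end Pool.Agent.Q169.CT
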