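import Mathlib

/-!
Poly-(infinite cyclic) subgroups.
-/

set_option autoImplicit false

namespace Pool.Agent.Q169.CT

/-- `PolyZ r C`: the subgroup `C` is poly-(infinite cyclic) of Hirsch length `r`, that is, there is a
series `1 = C₀ ≤ C₁ ≤ ⋯ ≤ C_r = C` in which `C_i` is normal in `C_{i+1}` and `C_{i+1}/C_i` is infinite
cyclic (`C_{i+1}` is generated by `C_i` and an element `t` which normalizes `C_i` and of which no
nontrivial power is in `C_i`). For instance, `ℤ^r`, and the torsion-free finitely generated nilpotent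
groups of Hirsch length `r`. -/
inductive PolyZ {G : Type} [Group G] : ℕ → Subgroup G → Prop
  | bot : PolyZ 0 ⊥
  | ext (r : ℕ) (C : Subgroup G) (t : G) : PolyZ r C → (∀ c ∈ C, t * c * t⁻¹ ∈ C) →
      (∀ c ∈ C, t⁻¹ * c * t ∈ C) → (∀ m : ℤ, t ^ m ∈ C → m = 0) →
      PolyZ (r + 1) (C ⊔ Subgroup.zpowers t)

end Pool.Agent.Q169.CT
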