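import Pool.Agent.Q169.CT.Core

/-!
The cohomology with coefficients in `ℤ[G/C]` for free abelian subgroups `C` of a Poincare duality
group.
-/

set_option autoImplicit false

namespace Pool.Agent.Q169.CT

open scoped Matrix
open Pool.Agent.H919R4.ZS (FinRes toRed)
open Pool.Agent.H919R4.AS (ringZ cobdZ coboundariesZ cohomologyZ)
open Pool.Agent.Q169.FT.PD (ringZ_single)
open Pool.Agent.Q169.PT (Mk Sec Mk_single Sec_single Mk_Sec Rt Rt_apply Rt_mul cobdZ_Mk mulVec_Rt)

noncomputable section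

variable {G : Type} [Group G]

/-- The cohomology with coefficients in `ℤ[G/C]` vanishes below degree `k`, and in degree `k` there
is a nonzero class fixed by right translation with the elements of `A`. -/
def Good (X : FinRes G) (A C : Subgroup G) (k : ℕ) : Prop :=
  (∀ i < k, ∀ y, cobdZ X (G ⧸ C) i y = 0 → Bd (cobdZ X (G ⧸ C)) i y) ∧
    ∃ z, cobdZ X (G ⧸ C) k z = 0 ∧ ¬ Bd (cobdZ X (G ⧸ C)) k z ∧
      ∀ s : A, Bd (cobdZ X (G ⧸ C)) k (W (rho C (s : G)) (X.n k) z - z)

lemma cobdZ_cobdZ (X : FinRes G) (C : Subgroup G) (i : ℕ) (y : Fin (X.n i) → (G ⧸ C →₀ ℤ)) :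
    cobdZ X (G ⧸ C) (i + 1) (cobdZ X (G ⧸ C) i y) = 0 := by
  have h1 : y = fun j => Mk C (Sec C (y j)) := funext fun j => (Mk_Sec C (y j)).symm
  rw [h1, cobdZ_Mk, cobdZ_Mk, Matrix.mulVec_mulVec, Pool.Agent.H919R4.ZS.d_mul_d,
    Matrix.zero_mulVec]
  funext k
  exact map_zero _

theorem good_step (X : FinRes G) (A C C' : Subgroup G) (hA : ∀ a ∈ A, ∀ b ∈ A, a * b = b * a)
    (h1 : C ≤ C') (h2 : C' ≤ A) (t : G) (ht : t ∈ C')
    (hg : ∀ c' ∈ C', ∃ k : ℤ, ∃ c ∈ C, c' = t ^ k * c) (hfr : ∀ m : ℤ, t ^ m ∈ C → m = 0) (k : ℕ)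
    (h : Good X A C (k + 1)) : Good X A C' k := by
  have hcm : ∀ s ∈ A, Cm C s := fun s hs c hc => hA c (h2 (h1 hc)) s hs
  have hcm' : ∀ s ∈ A, Cm C' s := fun s hs c hc => hA c (h2 hc) s hs
  have htc : Cm C t := hcm t (h2 ht)
  obtain ⟨h3, z, hz, hzn, hzs⟩ := h
  exact step (dA := cobdZ X (G ⧸ C)) (dB := cobdZ X (G ⧸ C')) (fun i x => cobdZ_cobdZ X C i x)
    (fun i => W (rho C t) (X.n i)) (fun i => W (pr C C') (X.n i))
    (fun i x => cob_W X _ (rho_smul htc) i x) (fun i x => cob_W X _ (pr_smul h1) i x)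
    (fun i => W_surj h1 _)
    (fun i x => by
      funext j
      change M _ (M _ _) = M _ _
      rw [M_comp]
      congr 2
      funext y
      exact pr_rho' h1 htc ht y)
    (fun i x hx => ker_W h1 htc hg _ x hx) (fun i x hx => fix_W htc hfr _ x hx)
    (fun (s : A) i => W (rho C (s : G)) (X.n i)) (fun (s : A) i => W (rho C' (s : G)) (X.n i))
    (fun s i x => cob_W X _ (rho_smul (hcm s s.2)) i x)
    (fun s i x => by
      funext j
      change M _ (M _ _) = M _ (M _ _)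
      rw [M_comp, M_comp]
      congr 2
      funext y
      exact rho_rho (hcm s s.2) htc (hA s s.2 t (h2 ht)) y)
    (fun s i x => by
      funext j
      change M _ (M _ _) = M _ (M _ _)
      rw [M_comp, M_comp]
      congr 2
      funext y
      exact pr_rho h1 (hcm s s.2) (hcm' s s.2) y)
    k (fun i hi y hy => h3 i (by omega) y hy) z hzn (hzs ⟨t, h2 ht⟩) hzs

/-! ### The beginning -/

lemma Sec_Mk_bot (a : MonoidAlgebra ℤ G) : Sec (⊥ : Subgroup G) (Mk ⊥ a) = a := by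
  induction a using MonoidAlgebra.induction_linear with
  | zero => simp
  | add x y hx hy => rw [map_add, map_add, hx, hy]
  | single g r =>
    rw [Mk_single, Sec_single]
    obtain ⟨c, hc, h1⟩ := out_mk (⊥ : Subgroup G) g
    rw [Subgroup.mem_bot] at hc
    rw [h1, hc, mul_one]

lemma Mk_bot_inj (a : MonoidAlgebra ℤ G) (h : Mk (⊥ : Subgroup G) a = 0) : a = 0 := by
  rw [← Sec_Mk_bot a, h, map_zero]

lemma Mk_bot_Rt (t : G) (a : MonoidAlgebra ℤ G) :
    M (rho (⊥ : Subgroup G) t) (Mk ⊥ a) = Mk ⊥ (Rt t a) := by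
  induction a using MonoidAlgebra.induction_linear with
  | zero => simp
  | add x y hx hy => rw [map_add, map_add, map_add, map_add, hx, hy]
  | single g r =>
    have hc : Cm (⊥ : Subgroup G) t := by
      intro c hc
      rw [Subgroup.mem_bot] at hc
      rw [hc, one_mul, mul_one]
    rw [Rt_apply, MonoidAlgebra.single_mul_single, mul_one, Mk_single, Mk_single, M_single,
      rho_mk hc]

/-- vectors -/
def Mv (n : ℕ) : (Fin n → MonoidAlgebra ℤ G) →+ (Fin n → (G ⧸ (⊥ : Subgroup G) →₀ ℤ)) where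
  toFun y := fun j => Mk ⊥ (y j)
  map_zero' := by funext j; exact map_zero _
  map_add' x y := by funext j; exact map_add _ _ _

lemma Mv_apply (n : ℕ) (y : Fin n → MonoidAlgebra ℤ G) (j : Fin n) : Mv n y j = Mk ⊥ (y j) := rfl

lemma Mv_inj (n : ℕ) (y : Fin n → MonoidAlgebra ℤ G) (h : Mv n y = 0) : y = 0 := by
  funext j
  exact Mk_bot_inj (y j) (congrFun h j)

lemma Mv_surj (n : ℕ) (y : Fin n → (G ⧸ (⊥ : Subgroup G) →₀ ℤ)) : ∃ x, Mv n x = y :=
  ⟨fun j => Sec ⊥ (y j), funext fun j => Mk_Sec ⊥ (y j)⟩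

lemma cob_Mv (X : FinRes G) (i : ℕ) (y : Fin (X.n i) → MonoidAlgebra ℤ G) :
    cobdZ X (G ⧸ (⊥ : Subgroup G)) i (Mv _ y) = Mv _ (X.cobd i y) := cobdZ_Mk X ⊥ i y

lemma Bd_Mv (X : FinRes G) : ∀ (i : ℕ) (y : Fin (X.n i) → MonoidAlgebra ℤ G),
    Bd (cobdZ X (G ⧸ (⊥ : Subgroup G))) i (Mv _ y) ↔ y ∈ X.coboundaries i
  | 0, y => by
    change Mv _ y = 0 ↔ y = 0
    exact ⟨Mv_inj _ y, fun h => by rw [h, map_zero]⟩
  | i + 1, y => by
    change (∃ x, cobdZ X (G ⧸ (⊥ : Subgroup G)) i x = Mv _ y) ↔ ∃ x, X.cobd i x = y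
    constructor
    · rintro ⟨x, hx⟩
      obtain ⟨x, rfl⟩ := Mv_surj _ x
      refine ⟨x, ?_⟩
      rw [cob_Mv] at hx
      rw [← sub_eq_zero]
      apply Mv_inj
      rw [map_sub, hx, sub_self]
    · rintro ⟨x, rfl⟩
      exact ⟨Mv _ x, cob_Mv X i x⟩

/-- right multiplication of vectors -/
def Rv (t : G) (n : ℕ) : (Fin n → MonoidAlgebra ℤ G) →+ (Fin n → MonoidAlgebra ℤ G) where
  toFun y := fun j => Rt t (y j)
  map_zero' := by funext j; exact map_zero _
  map_add' x y := by funext j; exact map_add _ _ _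

lemma cob_Rv (X : FinRes G) (t : G) (i : ℕ) (y : Fin (X.n i) → MonoidAlgebra ℤ G) :
    X.cobd i (Rv t _ y) = Rv t _ (X.cobd i y) := mulVec_Rt X t i y

lemma mem_Rv (X : FinRes G) (t : G) : ∀ (i : ℕ) (y : Fin (X.n i) → MonoidAlgebra ℤ G),
    y ∈ X.coboundaries i → Rv t _ y ∈ X.coboundaries i
  | 0, y, h => by
    have h' : y = 0 := h
    rw [h', map_zero]
    exact AddSubgroup.zero_mem _
  | i + 1, y, h => by
    obtain ⟨x, rfl⟩ := h
    exact ⟨Rv t _ x, cob_Rv X t i x⟩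

lemma Rv_mul (s t : G) (n : ℕ) (y : Fin n → MonoidAlgebra ℤ G) :
    Rv t n (Rv s n y) = Rv (s * t) n y := by
  funext j
  exact Rt_mul s t (y j)

theorem base (X : FinRes G) (n : ℕ) (hX : ∀ i < n, Subsingleton (X.cohomology i))
    (e : X.cohomology n ≃+ ℤ) (A : Subgroup G) (hA : ∀ a ∈ A, ∃ g, a = g * g) :
    Good X A ⊥ n := by
  constructor
  · intro i hi y hy
    obtain ⟨y, rfl⟩ := Mv_surj _ y
    rw [cob_Mv] at hy
    have h1 : X.cobd i y = 0 := Mv_inj _ _ hy
    rw [Bd_Mv]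
    have h2 := hX i hi
    rw [QuotientAddGroup.subsingleton_iff, AddSubgroup.addSubgroupOf_eq_top] at h2
    exact h2 (AddMonoidHom.mem_ker.2 h1)
  · obtain ⟨z, hz⟩ := QuotientAddGroup.mk_surjective (e.symm 1)
    have F3 : ∀ y : Fin (X.n n) → MonoidAlgebra ℤ G, X.cobd n y = 0 →
        ∃ m : ℤ, y - m • (z : Fin (X.n n) → MonoidAlgebra ℤ G) ∈ X.coboundaries n := by
      intro y hy
      let y' : (X.cobd n).ker := ⟨y, hy⟩
      refine ⟨e (QuotientAddGroup.mk y'), ?_⟩
      have h1 : (QuotientAddGroup.mk (e (QuotientAddGroup.mk y') • z) : X.cohomology n) =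
          QuotientAddGroup.mk y' := by
        apply e.injective
        change e (e (QuotientAddGroup.mk y') • (QuotientAddGroup.mk z : X.cohomology n)) = _
        rw [map_zsmul, hz, AddEquiv.apply_symm_apply, smul_eq_mul, mul_one]
      rw [QuotientAddGroup.eq] at h1
      have h2 : -(e (QuotientAddGroup.mk y') • (z : Fin (X.n n) → MonoidAlgebra ℤ G)) + y ∈
          X.coboundaries n := h1
      rwa [neg_add_eq_sub] at h2
    have F4 : ∀ m : ℤ, m • (z : Fin (X.n n) → MonoidAlgebra ℤ G) ∈ X.coboundaries n → m = 0 := by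
      intro m hm
      have h1 : (QuotientAddGroup.mk (m • z) : X.cohomology n) = 0 := by
        rw [QuotientAddGroup.eq_zero_iff]
        exact hm
      have h2 := congrArg e h1
      change e (m • (QuotientAddGroup.mk z : X.cohomology n)) = _ at h2
      rw [map_zsmul, hz, AddEquiv.apply_symm_apply, map_zero, smul_eq_mul, mul_one] at h2
      exact h2
    have hz0 : X.cobd n (z : Fin (X.n n) → MonoidAlgebra ℤ G) = 0 := z.2
    refine ⟨Mv _ z, by rw [cob_Mv, hz0, map_zero], ?_, ?_⟩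
    · rw [Bd_Mv]
      intro h
      have := F4 1 (by rw [one_zsmul]; exact h)
      exact one_ne_zero this
    · rintro ⟨a, ha⟩
      obtain ⟨g, rfl⟩ := hA a ha
      have h1 : W (rho (⊥ : Subgroup G) (g * g)) (X.n n) (Mv _ z) - Mv _ z =
          Mv _ (Rv (g * g) _ (z : Fin (X.n n) → MonoidAlgebra ℤ G) -
            (z : Fin (X.n n) → MonoidAlgebra ℤ G)) := by
        rw [map_sub]
        congr 1
        funext j
        exact Mk_bot_Rt (g * g) _
      rw [h1, Bd_Mv]
      obtain ⟨m, hm⟩ := F3 (Rv g _ z) (by rw [cob_Rv, hz0, map_zero])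
      obtain ⟨m', hm'⟩ := F3 (Rv g⁻¹ _ z) (by rw [cob_Rv, hz0, map_zero])
      have h2 := mem_Rv X g n _ hm'
      rw [map_sub, map_zsmul, Rv_mul, inv_mul_cancel] at h2
      have h3 : Rv (1 : G) _ (z : Fin (X.n n) → MonoidAlgebra ℤ G) = z := by
        funext j
        exact Pool.Agent.Q169.PT.Rt_one _
      rw [h3] at h2
      have h4 : (1 - m' * m) • (z : Fin (X.n n) → MonoidAlgebra ℤ G) ∈ X.coboundaries n := by
        have h5 := AddSubgroup.add_mem _ h2 (AddSubgroup.zsmul_mem _ hm m')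
        have h6 : (z : Fin (X.n n) → MonoidAlgebra ℤ G) - m' • Rv g _ z +
            m' • (Rv g _ z - m • (z : Fin (X.n n) → MonoidAlgebra ℤ G)) =
            (1 - m' * m) • (z : Fin (X.n n) → MonoidAlgebra ℤ G) := by
          module
        rw [h6] at h5
        exact h5
      have h5 := F4 _ h4
      have h6 : m' * m = 1 := by omega
      have h7 : m * m = 1 := by
        rcases Int.eq_one_or_neg_one_of_mul_eq_one' h6 with h | h <;> rw [h.2] <;> norm_num
      have h8 := AddSubgroup.add_mem _ (mem_Rv X g n _ hm) (AddSubgroup.zsmul_mem _ hm m)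
      rw [map_sub, map_zsmul, Rv_mul] at h8
      have h9 : Rv (g * g) _ (z : Fin (X.n n) → MonoidAlgebra ℤ G) - m • Rv g _ z +
          m • (Rv g _ z - m • (z : Fin (X.n n) → MonoidAlgebra ℤ G)) =
          Rv (g * g) _ (z : Fin (X.n n) → MonoidAlgebra ℤ G) -
            (m * m) • (z : Fin (X.n n) → MonoidAlgebra ℤ G) := by
        module
      rw [h9, h7, one_smul] at h8
      exact h8

end

end Pool.Agent.Q169.CT
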