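import Pool.Agent.Q169.CT.Nor
import Pool.Agent.Q169.CT.Step
import Pool.Agent.Q169.CT.Fsub
import Pool.Agent.Q169.CT.Pub
import Pool.Agent.H919R4.AS.Final

/-!
Poly-(infinite cyclic) subgroups of codimension two.
-/

set_option autoImplicit false

namespace Pool.Agent.Q169.CT

open scoped Matrix Pointwise symmDiff
open Pool.Agent.H919R4.ZS (FinRes toRed augm eps eps_d)
open Pool.Agent.H919R4.AS (ringZ cobdZ coboundariesZ cohomologyZ)
open Pool.Agent.H496R3.ZS (IsAmenable)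
open Pool.Agent.Q169.FT.PD (ringZ_single)

noncomputable section

section

variable {A : ℕ → Type} [∀ i, AddCommGroup (A i)]

theorem Bd_iff (dA : ∀ i, A i →+ A (i + 1)) : ∀ (i : ℕ) (y : A i), Bd dA i y ↔ y ∈ BS dA i
  | 0, _ => Iff.rfl
  | _ + 1, _ => Iff.rfl

end

variable {G : Type} [Group G]

theorem base2 (X : FinRes G) (n : ℕ) (hX : ∀ i < n, Subsingleton (X.cohomology i))
    (e : X.cohomology n ≃+ ℤ) : OZ (cobdZ X (G ⧸ (⊥ : Subgroup G))) n := by
  constructor
  · intro i hi y hy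
    obtain ⟨y, rfl⟩ := Mv_surj _ y
    rw [cob_Mv] at hy
    have h1 : X.cobd i y = 0 := Mv_inj _ _ hy
    rw [← Bd_iff, Bd_Mv]
    have h2 := hX i hi
    rw [QuotientAddGroup.subsingleton_iff, AddSubgroup.addSubgroupOf_eq_top] at h2
    exact h2 (AddMonoidHom.mem_ker.2 h1)
  · obtain ⟨z, hz⟩ := QuotientAddGroup.mk_surjective (e.symm 1)
    have F3 : ∀ y : Fin (X.n n) → MonoidAlgebra ℤ G, X.cobd n y = 0 →
        ∃ m : ℤ, y - m • (z : Fin (X.n n) → MonoidAlgebra ℤ G) ∈ X.coboundaries n := by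
      intro y hy
      let y' : (X.cobd n).ker := ⟨y, hy⟩
      refine ⟨e (QuotientAddGroup.mk y'), ?_⟩
      have h1 : (QuotientAddGroup.mk (e (QuotientAddGroup.mk y') • z) : X.cohomology n) =
          QuotientAddGroup.mk y' := by
        apply e.injective
        change e (e (QuotientAddGroup.mk y') • (QuotientAddGroup.mk z : X.cohomology n)) = _
        rw [map_zsmul, hz, AddEquiv.apply_symm_apply, smul_eq_mul, mul_one]
      rw [QuotientAddGroup.eq] at h1
      have h2 : -(e (QuotientAddGroup.mk y') • (z : Fin (X.n n) → MonoidAlgebra ℤ G)) + y ∈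
          X.coboundaries n := h1
      rwa [neg_add_eq_sub] at h2
    have F4 : ∀ m : ℤ, m • (z : Fin (X.n n) → MonoidAlgebra ℤ G) ∈ X.coboundaries n → m = 0 := by
      intro m hm
      have h1 : (QuotientAddGroup.mk (m • z) : X.cohomology n) = 0 := by
        rw [QuotientAddGroup.eq_zero_iff]
        exact hm
      have h2 := congrArg e h1
      change e (m • (QuotientAddGroup.mk z : X.cohomology n)) = _ at h2
      rw [map_zsmul, hz, AddEquiv.apply_symm_apply, map_zero, smul_eq_mul, mul_one] at h2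
      exact h2
    have hz0 : X.cobd n (z : Fin (X.n n) → MonoidAlgebra ℤ G) = 0 := z.2
    refine ⟨Mv _ z, by rw [cob_Mv, hz0, map_zero], ?_, ?_⟩
    · intro y hy
      obtain ⟨y, rfl⟩ := Mv_surj _ y
      rw [cob_Mv] at hy
      obtain ⟨m, hm⟩ := F3 y (Mv_inj _ _ hy)
      refine ⟨m, ?_⟩
      rw [← map_zsmul, ← map_sub, ← Bd_iff, Bd_Mv]
      exact hm
    · intro m hm
      rw [← map_zsmul, ← Bd_iff, Bd_Mv] at hm
      exact F4 m hm

/-- the group of the elements `t^k c` -/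
def Sp (C : Subgroup G) (t : G) (ht : Nm C t) : Subgroup G where
  carrier := {x | ∃ k : ℤ, ∃ c ∈ C, x = t ^ k * c}
  mul_mem' := by
    rintro _ _ ⟨a, c, hc, rfl⟩ ⟨b, d, hd, rfl⟩
    refine ⟨a + b, t ^ (-b) * c * t ^ b * d, C.mul_mem (ht b c hc) hd, ?_⟩
    rw [zpow_add]
    group
  one_mem' := ⟨0, 1, C.one_mem, by simp⟩
  inv_mem' := by
    rintro _ ⟨a, c, hc, rfl⟩
    refine ⟨-a, t ^ (-(-a)) * c⁻¹ * t ^ (-a), ht (-a) _ (C.inv_mem hc), ?_⟩
    group

lemma mem_sup (C : Subgroup G) (t : G) (ht : Nm C t) :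
    ∀ x ∈ C ⊔ Subgroup.zpowers t, ∃ k : ℤ, ∃ c ∈ C, x = t ^ k * c := by
  have h1 : C ⊔ Subgroup.zpowers t ≤ Sp C t ht := by
    apply sup_le
    · intro c hc
      exact ⟨0, c, hc, by simp⟩
    · rw [Subgroup.zpowers_le]
      exact ⟨1, 1, C.one_mem, by simp⟩
  exact fun x hx => h1 hx

theorem amen_bot : IsAmenable (⊥ : Subgroup G) := by
  intro S ε hε
  refine ⟨{1}, ⟨1, Finset.mem_singleton_self _⟩, fun s _ => ?_⟩
  have h1 : s = 1 := Subsingleton.elim _ _
  rw [h1, one_smul, symmDiff_self, Set.bot_eq_empty, Set.ncard_empty, Nat.cast_zero]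
  exact mul_nonneg hε.le (Nat.cast_nonneg _)

theorem amen_sup (D : Subgroup G) (t : G) (ht : Nm D t) (hfr : ∀ m : ℤ, t ^ m ∈ D → m = 0)
    (hD : IsAmenable D) : IsAmenable (D ⊔ Subgroup.zpowers t : Subgroup G) := by
  have hle : D ≤ D ⊔ Subgroup.zpowers t := le_sup_left
  have htm : t ∈ D ⊔ Subgroup.zpowers t := le_sup_right (a := D) (Subgroup.mem_zpowers t)
  refine amen_ext _ (D.subgroupOf (D ⊔ Subgroup.zpowers t)) ⟨t, htm⟩
    (amen_equiv (Subgroup.subgroupOfEquivOfLe hle).symm hD) ?_ ?_ ?_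
  · intro k c hc
    rw [Subgroup.mem_subgroupOf] at hc ⊢
    exact ht k c hc
  · rintro ⟨x, hx⟩
    obtain ⟨k, c, hc, rfl⟩ := mem_sup D t ht x hx
    exact ⟨k, ⟨c, hle hc⟩, Subgroup.mem_subgroupOf.2 hc, rfl⟩
  · intro m hm
    exact hfr m hm

theorem relIndex_sup (C D : Subgroup G) (t : G) (ht : Nm C t)
    (hi : D.relIndex C ≠ 0) (N : ℕ) (hN : 0 < N) :
    (D ⊔ Subgroup.zpowers (t ^ N)).relIndex (C ⊔ Subgroup.zpowers t) ≠ 0 := by
  have hfin : Finite (C ⧸ D.subgroupOf C) := Subgroup.index_ne_zero_iff_finite.1 hi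
  set C' := C ⊔ Subgroup.zpowers t with hC'
  set D' := D ⊔ Subgroup.zpowers (t ^ N) with hD'
  have hle : C ≤ C' := le_sup_left
  have htm : t ∈ C' := le_sup_right (a := C) (Subgroup.mem_zpowers t)
  let f : Fin N × (C ⧸ D.subgroupOf C) → C' ⧸ D'.subgroupOf C' := fun p =>
    QuotientGroup.mk ⟨t ^ (p.1 : ℕ) * (Quotient.out p.2 : C),
      C'.mul_mem (C'.pow_mem htm _) (hle (Quotient.out p.2 : C).2)⟩
  have hf : Function.Surjective f := by
    intro x
    obtain ⟨⟨x, hx⟩, rfl⟩ := QuotientGroup.mk_surjective x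
    obtain ⟨a, c, hc, rfl⟩ := mem_sup C t ht x hx
    have hN' : (0 : ℤ) < N := by exact_mod_cast hN
    have h0 := Int.emod_nonneg a hN'.ne'
    have h1 := Int.emod_lt_of_pos a hN'
    have h2 := Int.mul_ediv_add_emod a N
    set q := a / (N : ℤ) with hq
    have hc2 : t ^ (-(-(N * q))) * c * t ^ (-(N * q)) ∈ C := ht (-(N * q)) c hc
    rw [neg_neg] at hc2
    obtain ⟨e, he, hout⟩ := out_mk (D.subgroupOf C) (⟨_, hc2⟩ : C)
    refine ⟨(⟨(a % N).toNat, by omega⟩, QuotientGroup.mk (⟨_, hc2⟩ : C)), ?_⟩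
    change (QuotientGroup.mk _ : C' ⧸ D'.subgroupOf C') = QuotientGroup.mk _
    rw [QuotientGroup.eq, Subgroup.mem_subgroupOf]
    change (t ^ ((a % N).toNat) * ((Quotient.out (QuotientGroup.mk (⟨_, hc2⟩ : C) :
      C ⧸ D.subgroupOf C) : C) : G))⁻¹ * (t ^ a * c) ∈ D'
    rw [hout]
    have h3 : t ^ a = t ^ ((a % N).toNat) * t ^ (N * q) := by
      rw [← zpow_natCast, ← zpow_add]
      congr 1
      omega
    have h4 : (t ^ ((a % N).toNat) * ((⟨_, hc2⟩ * e : C) : G))⁻¹ * (t ^ a * c) =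
        (e : G)⁻¹ * (t ^ N) ^ q := by
      rw [h3, ← zpow_natCast t N, ← zpow_mul]
      change (t ^ ((a % N).toNat) * (t ^ (N * q) * c * t ^ (-(N * q)) * (e : G)))⁻¹ *
        (t ^ ((a % N).toNat) * t ^ (N * q) * c) = _
      rw [zpow_neg]
      group
    rw [h4]
    exact D'.mul_mem (D'.inv_mem (le_sup_left (a := D) (Subgroup.mem_subgroupOf.1 he)))
      (D'.zpow_mem (le_sup_right (a := D) (Subgroup.mem_zpowers _)) q)
  have : Finite (C' ⧸ D'.subgroupOf C') := Finite.of_surjective f hf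
  exact Subgroup.index_ne_zero_iff_finite.2 this

theorem chain (X : FinRes G) (n : ℕ) (hb : OZ (cobdZ X (G ⧸ (⊥ : Subgroup G))) n) (r : ℕ)
    (C : Subgroup G) (hC : PolyZ r C) : ∀ k, n = k + r → C.FG ∧
      ∃ D ≤ C, D.relIndex C ≠ 0 ∧ IsAmenable D ∧ OZ (cobdZ X (G ⧸ D)) k := by
  induction hC with
  | bot =>
    intro k hk
    obtain rfl : n = k := hk
    exact ⟨⟨∅, by simp⟩, ⊥, le_rfl, by rw [Subgroup.relIndex_self]; exact one_ne_zero, amen_bot, hb⟩
  | ext r C t hC h1 h2 hfr ih =>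
    intro k hk
    obtain ⟨hfg, D, hDC, hi, hDa, hOZ⟩ := ih (k + 1) (by omega)
    have ht : Nm C t := Nm_of h2 h1
    constructor
    · obtain ⟨S, hS⟩ := hfg
      classical
      refine ⟨S ∪ {t}, ?_⟩
      rw [Finset.coe_union, Subgroup.closure_union, hS, Finset.coe_singleton,
        Subgroup.zpowers_eq_closure]
    · obtain ⟨S, hS⟩ := ((Group.fg_iff_subgroup_fg C).2 hfg).out
      obtain ⟨N, hN, hN1, hN2⟩ := exists_power C D t S hS ht hDC hi
      have hu : Nm D (t ^ N) := Nm_of hN1 hN2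
      have huu : t ^ N * t ^ N = t ^ (N + N) := (pow_add t N N).symm
      have hfr' : ∀ m : ℤ, (t ^ N * t ^ N) ^ m ∈ D → m = 0 := by
        intro m hm
        rw [huu, ← zpow_natCast, ← zpow_mul] at hm
        have h3 := hfr _ (hDC hm)
        rcases mul_eq_zero.1 h3 with h | h
        · omega
        · exact h
      have hNs : Nm D (t ^ N * t ^ N) := by
        have := Nm_pow hu 2
        rwa [zpow_two] at this
      refine ⟨D ⊔ Subgroup.zpowers (t ^ N * t ^ N), ?_, ?_, amen_sup D _ hNs hfr' hDa, ?_⟩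
      · apply sup_le (hDC.trans le_sup_left)
        rw [Subgroup.zpowers_le, huu]
        exact Subgroup.pow_mem _ (le_sup_right (a := C) (Subgroup.mem_zpowers t)) _
      · rw [huu]
        exact relIndex_sup C D t ht hi (N + N) (by omega)
      · exact oz_step X D _ le_sup_left (t ^ N) hu
          (le_sup_right (a := D) (Subgroup.mem_zpowers _)) (mem_sup D _ hNs) hfr' k hOZ

/-! ### The end -/

lemma ringZ_all (D : Subgroup G) [Fintype (G ⧸ D)] (a : MonoidAlgebra ℤ G) :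
    ringZ G (G ⧸ D) a (∑ x : G ⧸ D, Finsupp.single x 1) =
      augm G a • ∑ x : G ⧸ D, Finsupp.single x (1 : ℤ) := by
  induction a using MonoidAlgebra.induction_linear with
  | zero => rw [map_zero, map_zero, zero_smul]; rfl
  | add u v hu hv => rw [map_add, map_add, add_smul, ← hu, ← hv]; rfl
  | single g r =>
    rw [map_sum, Pool.Agent.H919R4.ZS.augm_single, Finset.smul_sum]
    refine Fintype.sum_equiv (MulAction.toPerm g : Equiv.Perm (G ⧸ D)) _ _ fun x => ?_
    rw [ringZ_single, Finsupp.smul_single, smul_eq_mul]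
    rfl

theorem infinite_of (X : FinRes G) (D : Subgroup G)
    (h : ∀ y, cobdZ X (G ⧸ D) 0 y = 0 → y = 0) : Infinite (G ⧸ D) := by
  by_contra hcon
  rw [not_infinite_iff_finite] at hcon
  have := Fintype.ofFinite (G ⧸ D)
  have h1 := h (fun j => X.aug j • ∑ x : G ⧸ D, Finsupp.single x (1 : ℤ)) (by
    funext k
    change ∑ j, ringZ G (G ⧸ D) (X.d 0 k j) (X.aug j • ∑ x : G ⧸ D, Finsupp.single x (1 : ℤ)) = 0
    have h2 : ∀ j, ringZ G (G ⧸ D) (X.d 0 k j) (X.aug j • ∑ x : G ⧸ D, Finsupp.single x (1 : ℤ)) =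
        (augm G (X.d 0 k j) * X.aug j) • ∑ x : G ⧸ D, Finsupp.single x (1 : ℤ) := by
      intro j
      rw [map_zsmul, ringZ_all, smul_smul, mul_comm]
    rw [Finset.sum_congr rfl fun j _ => h2 j, ← Finset.sum_smul]
    have h3 : ∑ j, augm G (X.d 0 k j) * X.aug j = 0 := by
      have e0 : (Pi.single k 1 : Fin (X.n 1) → MonoidAlgebra ℤ G) ᵥ* X.d 0 = X.d 0 k := by
        rw [Matrix.single_one_vecMul]; rfl
      have e1 := eps_d X (Pi.single k 1)
      rw [e0] at e1
      exact e1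
    rw [h3, zero_smul])
  have h4 : ∀ j, X.aug j = 0 := by
    intro j
    have h5 := DFunLike.congr_fun (congrFun h1 j) (QuotientGroup.mk 1 : G ⧸ D)
    classical
    rw [Pi.zero_apply, Finsupp.smul_apply, Finsupp.finsetSum_apply] at h5
    simp only [Finsupp.single_apply, Finset.sum_ite_eq', Finset.mem_univ, if_true,
      Finsupp.coe_zero, Pi.zero_apply, smul_eq_mul, mul_one] at h5
    exact h5
  obtain ⟨x, hx⟩ := X.surj
  rw [Finset.sum_eq_zero fun j _ => by rw [h4 j, mul_zero]] at hx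
  exact zero_ne_one hx

theorem main (X : FinRes G) (r : ℕ) (hX : ∀ i < r + 2, Subsingleton (X.cohomology i))
    (h : Nonempty (X.cohomology (r + 2) ≃+ ℤ)) (C : Subgroup G) (hC : PolyZ r C) :
    ∃ i ≤ 2, Nontrivial (X.homology (toRed G) i) := by
  obtain ⟨e⟩ := h
  obtain ⟨-, D, -, -, hDa, h0, z, hz, -, hfree⟩ :=
    chain X (r + 2) (base2 X (r + 2) hX e) r C hC 2 (by omega)
  have hinf : Infinite (G ⧸ D) := infinite_of X D fun y hy => h0 0 (by norm_num) y hy
  refine Pool.Agent.H919R4.AS.main X hDa hinf ⟨2, le_rfl, ?_⟩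
  by_contra hcon
  rw [not_nontrivial_iff_subsingleton, QuotientAddGroup.subsingleton_iff,
    AddSubgroup.addSubgroupOf_eq_top] at hcon
  have h1 : z ∈ coboundariesZ X (G ⧸ D) 2 := hcon (AddMonoidHom.mem_ker.2 hz)
  have h2 := hfree 1 (by rw [one_zsmul]; exact h1)
  exact one_ne_zero h2

/-- A poly-(infinite cyclic) group of Hirsch length `s` contains one of Hirsch length `r` for all
`r ≤ s`. -/
theorem polyZ_le (s : ℕ) (C : Subgroup G) (hC : PolyZ s C) :
    ∀ r ≤ s, ∃ D : Subgroup G, PolyZ r D := by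
  induction hC with
  | bot =>
    intro r hr
    obtain rfl : r = 0 := by omega
    exact ⟨⊥, PolyZ.bot⟩
  | ext s C t hC h1 h2 h3 ih =>
    intro r hr
    rcases Nat.lt_or_ge r (s + 1) with h | h
    · exact ih r (by omega)
    · obtain rfl : r = s + 1 := by omega
      exact ⟨_, PolyZ.ext s C t hC h1 h2 h3⟩

theorem main2 (X : FinRes G) (n : ℕ) (hn : 2 ≤ n) (hX : ∀ i < n, Subsingleton (X.cohomology i))
    (h : Nonempty (X.cohomology n ≃+ ℤ)) (s : ℕ) (C : Subgroup G) (hC : PolyZ s C)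
    (hs : n ≤ s + 2) : ∃ i ≤ 2, Nontrivial (X.homology (toRed G) i) := by
  obtain ⟨r, rfl⟩ : ∃ r, n = r + 2 := ⟨n - 2, by omega⟩
  obtain ⟨D, hD⟩ := polyZ_le s C hC r (by omega)
  exact main X r hX h D hD

end

end Pool.Agent.Q169.CT
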